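import Mathlib

set_option autoImplicit false

/-! Finite Ramsey theorem for pairs, any finite number of colours, ordered version. -/

namespace Pool.Agent.H730R3

open Finset

theorem ramsey_aux (C : Type) [Fintype C] [Nonempty C] (s : ℕ) :
    ∃ N : ℕ, ∀ (ι : Type) [LinearOrder ι] (c : ι → ι → C) (S : Finset ι), N ≤ S.card →
      ∃ T ⊆ S, T.card = s ∧ ∃ γ : ι → C, ∀ i ∈ T, ∀ j ∈ T, i < j → c i j = γ i := by
  classical
  induction s with
  | zero =>
    exact ⟨0, fun ι _ c S _ => ⟨∅, by simp, rfl, fun _ => Classical.arbitrary C, by simp⟩⟩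
  | succ s ih =>
    obtain ⟨N, hN⟩ := ih
    refine ⟨Fintype.card C * N + 1, ?_⟩
    intro ι _ c S hS
    have hne : S.Nonempty := by rw [← card_pos]; omega
    set x := S.min' hne with hx
    have hxS : x ∈ S := S.min'_mem hne
    have hS' : Fintype.card C * N ≤ (S.erase x).card := by
      rw [card_erase_of_mem hxS]; omega
    obtain ⟨γ0, -, h0⟩ := Finset.exists_le_card_fiber_of_mul_le_card_of_maps_to
      (s := S.erase x) (t := (univ : Finset C)) (f := fun y => c x y) (n := N)
      (fun _ _ => mem_univ _) univ_nonempty (by rw [card_univ]; exact hS')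
    obtain ⟨T, hT, hTc, γ, hγ⟩ := hN ι c _ h0
    have hTx : ∀ y ∈ T, y ∈ S ∧ x < y ∧ c x y = γ0 := by
      intro y hy
      have h1 := mem_filter.1 (hT hy)
      have h2 := mem_erase.1 h1.1
      exact ⟨h2.2, lt_of_le_of_ne (S.min'_le y h2.2) (Ne.symm h2.1), h1.2⟩
    have hxT : x ∉ T := fun h => lt_irrefl _ (hTx x h).2.1
    refine ⟨insert x T, ?_, ?_, Function.update γ x γ0, ?_⟩
    · intro y hy
      rcases mem_insert.1 hy with h | h
      · rw [h]; exact hxS
      · exact (hTx y h).1
    · rw [card_insert_of_notMem hxT, hTc]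
    · intro i hi j hj hij
      rcases mem_insert.1 hi with h | h
      · subst h
        rcases mem_insert.1 hj with h' | h'
        · exact absurd hij (by rw [h']; exact lt_irrefl _)
        · rw [Function.update_self]; exact (hTx j h').2.2
      · have hix : i ≠ x := fun h' => hxT (h' ▸ h)
        rw [Function.update_of_ne hix]
        rcases mem_insert.1 hj with h' | h'
        · exact absurd (lt_trans (hTx i h).2.1 hij) (by rw [h']; exact lt_irrefl _)
        · exact hγ i h j h' hij

theorem ramsey (C : Type) [Fintype C] [Nonempty C] (m : ℕ) :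
    ∃ N : ℕ, ∀ (ι : Type) [LinearOrder ι] (c : ι → ι → C) (S : Finset ι), N ≤ S.card →
      ∃ T ⊆ S, T.card = m ∧ ∃ γ : C, ∀ i ∈ T, ∀ j ∈ T, i < j → c i j = γ := by
  classical
  obtain ⟨N, hN⟩ := ramsey_aux C (Fintype.card C * m)
  refine ⟨N, ?_⟩
  intro ι _ c S hS
  obtain ⟨T, hT, hTc, γ, hγ⟩ := hN ι c S hS
  obtain ⟨γ0, -, h0⟩ := Finset.exists_le_card_fiber_of_mul_le_card_of_maps_to
      (s := T) (t := (univ : Finset C)) (f := γ) (n := m)
      (fun _ _ => mem_univ _) univ_nonempty (by rw [card_univ, hTc])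
  obtain ⟨T', hT', hT'c⟩ := Finset.exists_subset_card_eq h0
  refine ⟨T', ?_, hT'c, γ0, ?_⟩
  · intro y hy; exact hT (mem_filter.1 (hT' hy)).1
  · intro i hi j hj hij
    have h1 := mem_filter.1 (hT' hi)
    have h2 := mem_filter.1 (hT' hj)
    rw [hγ i h1.1 j h2.1 hij, h1.2]

end Pool.Agent.H730R3
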