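import Mathlib
import Pool.Agent.H730R3.GStruct

set_option autoImplicit false
set_option linter.all false

/-! Structure of an edge colouring modulo subgroups. -/

namespace Pool.Agent.H730R3

open Finset

/-- equal classes are twins modulo `H` relative to `X1` -/
def ClProp {X A κ : Type} [AddCommGroup A] (f : Sym2 X → A) (H : AddSubgroup A) (X1 : Finset X)
    (cl : X → κ) : Prop :=
  ∀ z ∈ X1, ∀ z' ∈ X1, cl z = cl z' → ∀ x ∈ X1, x ≠ z → x ≠ z' → f s(x, z) - f s(x, z') ∈ H

def Del {X A : Type} [AddCommGroup A] (f : Sym2 X → A) (z z' x x' : X) : A :=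
  f s(x, z) - f s(x, z') - f s(x', z) + f s(x', z')

/-- `t` disjoint alternating 4-cycles with sum outside `M` -/
def Cyc {X A κ : Type} [AddCommGroup A] (f : Sym2 X → A) (M : AddSubgroup A) (X1 : Finset X)
    (cl : X → κ) (t : ℕ) : Prop :=
  ∃ c : Fin t → Fin 4 → X, Function.Injective (fun p : Fin t × Fin 4 => c p.1 p.2) ∧
    ∀ i, (∀ l, c i l ∈ X1) ∧ cl (c i 0) = cl (c i 1) ∧ cl (c i 2) = cl (c i 3) ∧
      Del f (c i 0) (c i 1) (c i 2) (c i 3) ∉ M

theorem fstruct_aux (A : Type) [AddCommGroup A] [Fintype A] (T : ℕ) (h : ℕ) : ∀ K : ℕ,
    ∃ d' K' : ℕ, ∀ (X : Type) [Fintype X] [DecidableEq X] (f : Sym2 X → A) (H : AddSubgroup A)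
      (X1 : Finset X) (cl : X → Fin K), (H : Set A).ncard ≤ h → ClProp f H X1 cl →
      ∃ (H' : AddSubgroup A) (X2 : Finset X) (cl' : X → Fin K'), X2 ⊆ X1 ∧
        X1.card ≤ X2.card + d' ∧ ClProp f H' X2 cl' ∧ ∀ M < H', Cyc f M X2 cl' T := by
  classical
  induction h with
  | zero =>
    intro K
    refine ⟨0, 0, ?_⟩
    intro X _ _ f H X1 cl hH
    exfalso
    have : 0 < (H : Set A).ncard := by
      rw [Set.ncard_pos (Set.toFinite _)]
      exact ⟨0, H.zero_mem⟩
    omega
  | succ h ih =>
    intro K
    obtain ⟨d'', K'', hih⟩ := ih (Fintype.card (Fin K × (Fin K → A)))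
    refine ⟨4 * T + K + d'', K + K'', ?_⟩
    intro X _ _ f H X1 cl hH hcl
    by_cases hall : ∀ M < H, Cyc f M X1 cl T
    · refine ⟨H, X1, fun x => Fin.castLE (by omega) (cl x), Subset.refl _, by omega, ?_, ?_⟩
      · intro z hz z' hz' he
        exact hcl z hz z' hz' (Fin.castLE_injective _ he)
      · intro M hM
        obtain ⟨c, hc1, hc2⟩ := hall M hM
        refine ⟨c, hc1, fun i => ⟨(hc2 i).1, ?_, ?_, (hc2 i).2.2.2⟩⟩
        · simp only [(hc2 i).2.1]
        · simp only [(hc2 i).2.2.1]
    · push Not at hall
      obtain ⟨M, hM, hMc⟩ := hall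
      have hstep : ∃ t < T, Cyc f M X1 cl t ∧ ¬ Cyc f M X1 cl (t + 1) := by
        by_contra hcon
        push Not at hcon
        have : ∀ t ≤ T, Cyc f M X1 cl t := by
          intro t
          induction t with
          | zero => intro _; exact ⟨fun i => i.elim0, fun p => p.1.elim0, fun i => i.elim0⟩
          | succ t iht => intro ht; exact hcon t (by omega) (iht (by omega))
        exact hMc (this T le_rfl)
      obtain ⟨t, htT, ⟨c, hc1, hc2⟩, hnot⟩ := hstep
      set D : Finset X := (univ : Finset (Fin t × Fin 4)).image (fun p => c p.1 p.2) with hD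
      have hDc : D.card ≤ 4 * T := by
        have h1 : D.card ≤ (univ : Finset (Fin t × Fin 4)).card := Finset.card_image_le
        rw [card_univ, Fintype.card_prod, Fintype.card_fin, Fintype.card_fin] at h1
        omega
      let ex : Fin K → Prop := fun β => ∃ x ∈ X1 \ D, cl x = β
      let E : Finset X := (univ : Finset (Fin K)).biUnion
        (fun β => if h : ex β then {Classical.choose h} else ∅)
      have hEc : E.card ≤ K := by
        have h1 := Finset.card_biUnion_le_card_mul (univ : Finset (Fin K))
          (fun β => if h : ex β then ({Classical.choose h} : Finset X) else ∅) 1 (by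
            intro β _
            by_cases hβ : ex β
            · simp [hβ]
            · simp [hβ])
        rw [card_univ, Fintype.card_fin, mul_one] at h1
        exact h1
      let e := Fintype.equivFin (Fin K × (Fin K → A))
      let cl1 : X → Fin K × (Fin K → A) := fun z =>
        (cl z, fun β => if h : ex β then f s(Classical.choose h, z) else 0)
      have hprop : ClProp f M (X1 \ (D ∪ E)) (fun z => e (cl1 z)) := by
        intro z hz z' hz' he x hx hxz hxz'
        have he1 := e.injective he
        have hcz : cl z = cl z' := congrArg Prod.fst he1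
        have hfun := congrArg Prod.snd he1
        simp only [cl1] at hfun
        rw [mem_sdiff, mem_union, not_or] at hz hz' hx
        by_cases hzz : z = z'
        · rw [hzz, sub_self]; exact M.zero_mem
        have hex : ex (cl x) := ⟨x, mem_sdiff.2 ⟨hx.1, hx.2.1⟩, rfl⟩
        have hval := congrFun hfun (cl x)
        rw [dif_pos hex, dif_pos hex] at hval
        have hy := Classical.choose_spec hex
        set y := Classical.choose hex with hydef
        have hyE : y ∈ E := by
          simp only [E, mem_biUnion]
          refine ⟨cl x, mem_univ _, ?_⟩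
          rw [dif_pos hex]
          exact mem_singleton_self _
        have hyz : y ≠ z := fun h => hz.2.2 (h ▸ hyE)
        have hyz' : y ≠ z' := fun h => hz'.2.2 (h ▸ hyE)
        have hyx : y ≠ x := fun h => hx.2.2 (h ▸ hyE)
        rw [mem_sdiff] at hy
        by_contra hcon
        apply hnot
        have hnD : ∀ w, w ∉ D → ∀ i b, w ≠ c i b := by
          intro w hw i b h
          apply hw
          rw [hD, mem_image]
          exact ⟨(i, b), mem_univ _, h.symm⟩
        refine ⟨Fin.snoc (α := fun _ => Fin 4 → X) c ![z, z', x, y], ?_, ?_⟩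
        · apply inj_snoc c hc1
          · intro a b hab
            fin_cases a <;> fin_cases b <;> simp at hab ⊢
            · exact hzz hab
            · exact hxz hab.symm
            · exact hyz hab.symm
            · exact hzz hab.symm
            · exact hxz' hab.symm
            · exact hyz' hab.symm
            · exact hxz hab
            · exact hxz' hab
            · exact hyx hab.symm
            · exact hyz hab
            · exact hyz' hab
            · exact hyx hab
          · intro a i b
            fin_cases a
            · exact hnD z hz.2.1 i b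
            · exact hnD z' hz'.2.1 i b
            · exact hnD x hx.2.1 i b
            · exact hnD y hy.1.2 i b
        · intro i
          induction i using Fin.lastCases with
          | last =>
            simp only [Fin.snoc_last]
            refine ⟨?_, ?_, ?_, ?_⟩
            · intro l
              fin_cases l
              · exact hz.1
              · exact hz'.1
              · exact hx.1
              · exact hy.1.1
            · exact hcz
            · exact hy.2.symm
            · intro hmem
              apply hcon
              have : Del f z z' x y = f s(x, z) - f s(x, z') := by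
                unfold Del
                rw [hval]; abel
              rw [← this]
              exact hmem
          | cast i => simp only [Fin.snoc_castSucc]; exact hc2 i
      have hMcard : (M : Set A).ncard ≤ h := by
        have : (M : Set A).ncard < (H : Set A).ncard :=
          Set.ncard_lt_ncard (SetLike.coe_ssubset_coe.2 hM) (Set.toFinite _)
        omega
      obtain ⟨H', X2, cl', h1, h2, h3, h4⟩ := hih X f M (X1 \ (D ∪ E)) (fun z => e (cl1 z))
        hMcard hprop
      refine ⟨H', X2, fun x => Fin.castLE (by omega) (cl' x), h1.trans sdiff_subset, ?_, ?_, ?_⟩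
      · have h5 := Finset.le_card_sdiff (D ∪ E) X1
        have h6 := Finset.card_union_le D E
        omega
      · intro z hz z' hz' he
        exact h3 z hz z' hz' (Fin.castLE_injective _ he)
      · intro M' hM'
        obtain ⟨c', hc1', hc2'⟩ := h4 M' hM'
        refine ⟨c', hc1', fun i => ⟨(hc2' i).1, ?_, ?_, (hc2' i).2.2.2⟩⟩
        · simp only [(hc2' i).2.1]
        · simp only [(hc2' i).2.2.1]

theorem fstruct (A : Type) [AddCommGroup A] [Fintype A] (T : ℕ) :
    ∃ d K : ℕ, ∀ (X : Type) [Fintype X] [DecidableEq X] (f : Sym2 X → A),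
      ∃ (H : AddSubgroup A) (X1 : Finset X) (cl : X → Fin K),
        Fintype.card X ≤ X1.card + d ∧ ClProp f H X1 cl ∧ ∀ M < H, Cyc f M X1 cl T := by
  obtain ⟨d, K, h⟩ := fstruct_aux A T (⊤ : Set A).ncard 1
  refine ⟨d, K, ?_⟩
  intro X _ _ f
  obtain ⟨H, X1, cl, -, h2, h3, h4⟩ := h X f ⊤ univ (fun _ => 0)
    (by rw [AddSubgroup.coe_top]; rfl)
    (fun _ _ _ _ _ _ _ _ _ => AddSubgroup.mem_top _)
  exact ⟨H, X1, cl, by rw [← card_univ]; exact h2, h3, h4⟩

end Pool.Agent.H730R3
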