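import Mathlib
import Pool.Agent.H730R3.Ramsey

set_option autoImplicit false
set_option linter.all false

/-! Sums of an edge colouring over a mapped graph, and their dependence on block updates. -/

namespace Pool.Agent.H730R3

open Finset

section
variable {V X A : Type} [Fintype V] [DecidableEq V] [AddCommGroup A]

/-- the colour sum of the image of `G` under `φ` -/
def S (G : SimpleGraph V) [DecidableRel G.Adj] (f : Sym2 X → A) (φ : V → X) : A :=
  ∑ e ∈ G.edgeFinset, f (Sym2.map φ e)

def mix (φ ψ : V → X) (W : Finset V) : V → X := fun t => if t ∈ W then ψ t else φ t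

def d2 (f : Sym2 X → A) (φ ψ : V → X) (u v : V) : A :=
  f s(ψ u, ψ v) - f s(ψ u, φ v) - f s(φ u, ψ v) + f s(φ u, φ v)

theorem d2_symm (f : Sym2 X → A) (φ ψ : V → X) (a b : V) :
    d2 f φ ψ b a = f s(ψ a, ψ b) - f s(φ a, ψ b) - f s(ψ a, φ b) + f s(φ a, φ b) := by
  unfold d2
  rw [Sym2.eq_swap (a := ψ b) (b := ψ a), Sym2.eq_swap (a := ψ b) (b := φ a),
    Sym2.eq_swap (a := φ b) (b := ψ a), Sym2.eq_swap (a := φ b) (b := φ a)]

theorem mix_empty (φ ψ : V → X) : mix φ ψ ∅ = φ := by
  funext t; simp [mix]

theorem D2 (G : SimpleGraph V) [DecidableRel G.Adj] (f : Sym2 X → A) (φ ψ : V → X)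
    (W1 W2 : Finset V) (hd : Disjoint W1 W2) :
    S G f (mix φ ψ (W1 ∪ W2)) - S G f (mix φ ψ W1) - S G f (mix φ ψ W2) + S G f φ
      = ∑ u ∈ W1, ∑ v ∈ W2, if G.Adj u v then d2 f φ ψ u v else 0 := by
  have key : ∀ e ∈ G.edgeFinset,
      f (Sym2.map (mix φ ψ (W1 ∪ W2)) e) - f (Sym2.map (mix φ ψ W1) e)
        - f (Sym2.map (mix φ ψ W2) e) + f (Sym2.map φ e)
      = ∑ u ∈ W1, ∑ v ∈ W2, if s(u, v) = e then d2 f φ ψ u v else 0 := by
    intro e he
    induction e using Sym2.ind with
    | _ a b =>
    rw [SimpleGraph.mem_edgeFinset, SimpleGraph.mem_edgeSet] at he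
    have hab : a ≠ b := he.ne
    have h1 : ∀ u v : V, (if s(u, v) = s(a, b) then d2 f φ ψ u v else 0)
        = (if u = a then (if v = b then d2 f φ ψ a b else 0) else 0)
          + (if u = b then (if v = a then d2 f φ ψ b a else 0) else 0) := by
      intro u v
      by_cases hua : u = a
      · subst hua
        have : u ≠ b := hab
        by_cases hvb : v = b
        · subst hvb; simp [this]
        · have h2 : s(u, v) ≠ s(u, b) := by
            intro h
            rw [Sym2.eq_iff] at h
            rcases h with h | h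
            · exact hvb h.2
            · exact this h.1
          simp [hvb, this]
      · by_cases hub : u = b
        · subst hub
          by_cases hva : v = a
          · subst hva; simp [hab, hab.symm, Sym2.eq_swap]
          · have h2 : s(u, v) ≠ s(a, u) := by
              intro h
              rw [Sym2.eq_iff] at h
              rcases h with h | h
              · exact hua h.1
              · exact hva h.2
            rw [if_neg h2]
            simp [hua, hva]
        · have h2 : s(u, v) ≠ s(a, b) := by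
            intro h
            rw [Sym2.eq_iff] at h
            rcases h with h | h
            · exact hua h.1
            · exact hub h.1
          rw [if_neg h2]
          simp [hua, hub]
    have h3 : (∑ u ∈ W1, ∑ v ∈ W2, if s(u, v) = s(a, b) then d2 f φ ψ u v else 0)
        = (if a ∈ W1 then (if b ∈ W2 then d2 f φ ψ a b else 0) else 0)
          + (if b ∈ W1 then (if a ∈ W2 then d2 f φ ψ b a else 0) else 0) := by
      simp only [h1, sum_add_distrib, sum_ite_eq']
      congr 1
      · have : ∀ u ∈ W1, (∑ v ∈ W2, if u = a then (if v = b then d2 f φ ψ a b else 0) else 0)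
            = if u = a then (if b ∈ W2 then d2 f φ ψ a b else 0) else 0 := by
          intro u _
          by_cases hu : u = a
          · simp [hu]
          · simp [hu]
        rw [sum_congr rfl this, sum_ite_eq']
      · have : ∀ u ∈ W1, (∑ v ∈ W2, if u = b then (if v = a then d2 f φ ψ b a else 0) else 0)
            = if u = b then (if a ∈ W2 then d2 f φ ψ b a else 0) else 0 := by
          intro u _
          by_cases hu : u = b
          · simp [hu]
          · simp [hu]
        rw [sum_congr rfl this, sum_ite_eq']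
    rw [h3, d2_symm f φ ψ a b]
    have hdis : ∀ t, t ∈ W1 → t ∉ W2 := fun t h1 h2 => (disjoint_left.1 hd) h1 h2
    simp only [Sym2.map_mk, mix, mem_union]
    unfold d2
    by_cases ha1 : a ∈ W1
    · have ha2 := hdis a ha1
      by_cases hb1 : b ∈ W1
      · have hb2 := hdis b hb1
        simp [ha1, ha2, hb1, hb2]
      · by_cases hb2 : b ∈ W2
        · simp [ha1, ha2, hb1, hb2]
        · simp [ha1, ha2, hb1, hb2]
    · by_cases ha2 : a ∈ W2
      · by_cases hb1 : b ∈ W1
        · have hb2 := hdis b hb1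
          simp [ha1, ha2, hb1, hb2]
        · by_cases hb2 : b ∈ W2
          · simp [ha1, ha2, hb1, hb2]
          · simp [ha1, ha2, hb1, hb2]
      · by_cases hb1 : b ∈ W1
        · have hb2 := hdis b hb1
          simp [ha1, ha2, hb1, hb2]
        · by_cases hb2 : b ∈ W2
          · simp [ha1, ha2, hb1, hb2]
          · simp [ha1, ha2, hb1, hb2]
  unfold S
  rw [← sum_sub_distrib, ← sum_sub_distrib, ← sum_add_distrib, sum_congr rfl key]
  rw [sum_comm]
  refine sum_congr rfl fun u _ => ?_
  rw [sum_comm]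
  refine sum_congr rfl fun v _ => ?_
  rw [sum_ite_eq]
  simp [SimpleGraph.mem_edgeFinset]

/-- A function of finite sets which is quadratic, with linear part `a` and quadratic part `B`. -/
def IsQuad {ι : Type} [DecidableEq ι] (F : Finset ι → A) (a : ι → A) (B : ι → ι → A) : Prop :=
  ∀ i Y, i ∉ Y → F (insert i Y) = F Y + a i + ∑ j ∈ Y, B i j

theorem isQuad_blocks {ι : Type} [DecidableEq ι] (G : SimpleGraph V) [DecidableRel G.Adj]
    (f : Sym2 X → A) (φ ψ : V → X) (W : ι → Finset V)
    (hW : ∀ i j, i ≠ j → Disjoint (W i) (W j)) :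
    IsQuad (fun Y => S G f (mix φ ψ (Y.biUnion W)))
      (fun i => S G f (mix φ ψ (W i)) - S G f φ)
      (fun i j => ∑ u ∈ W i, ∑ v ∈ W j, if G.Adj u v then d2 f φ ψ u v else 0) := by
  intro i Y hi
  have hd : Disjoint (W i) (Y.biUnion W) := by
    rw [disjoint_biUnion_right]
    intro j hj
    exact hW i j (fun h => hi (h ▸ hj))
  have h := D2 G f φ ψ (W i) (Y.biUnion W) hd
  simp only
  rw [biUnion_insert]
  have h2 : (∑ u ∈ W i, ∑ v ∈ Y.biUnion W, if G.Adj u v then d2 f φ ψ u v else 0)
      = ∑ j ∈ Y, ∑ u ∈ W i, ∑ v ∈ W j, if G.Adj u v then d2 f φ ψ u v else 0 := by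
    rw [sum_comm]
    rw [sum_biUnion]
    · refine sum_congr rfl fun j _ => ?_
      rw [sum_comm]
    · intro j _ j' _ hjj
      exact hW j j' hjj
  rw [← h2, ← h]
  abel

theorem IsQuad.homog {ι : Type} [LinearOrder ι] {F : Finset ι → A} {a : ι → A} {B : ι → ι → A}
    (hF : IsQuad F a B) (α β : A) (Y : Finset ι) (ha : ∀ i ∈ Y, a i = α)
    (hB : ∀ i ∈ Y, ∀ j ∈ Y, i < j → B i j = β) :
    F Y = F ∅ + Y.card • α + (Y.card.choose 2) • β := by
  induction Y using Finset.induction_on_min with
  | empty => simp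
  | insert i Y hlt ih =>
    have hi : i ∉ Y := fun h => lt_irrefl _ (hlt i h)
    rw [hF i Y hi, ih (fun j hj => ha j (mem_insert_of_mem hj))
      (fun j hj l hl => hB j (mem_insert_of_mem hj) l (mem_insert_of_mem hl)),
      ha i (mem_insert_self _ _), card_insert_of_notMem hi]
    have : ∑ j ∈ Y, B i j = Y.card • β := by
      rw [sum_congr rfl (fun j hj => hB i (mem_insert_self _ _) j (mem_insert_of_mem hj) (hlt j hj)),
        sum_const]
    rw [this, Nat.choose_succ_succ' Y.card 1, Nat.choose_one_right, add_smul, add_smul, one_smul]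
    abel

end

/-- Ramsey for quadratic set functions: a set of size `2km` on which nothing changes. -/
theorem block_ramsey (k : ℕ) [NeZero k] (m : ℕ) :
    ∃ N : ℕ, ∀ (ι : Type) [LinearOrder ι] (F : Finset ι → ZMod k) (a : ι → ZMod k)
      (B : ι → ι → ZMod k), IsQuad F a B → ∀ T : Finset ι, N ≤ T.card →
      ∃ Y ⊆ T, Y.card = 2 * k * m ∧ F Y = F ∅ := by
  obtain ⟨N, hN⟩ := ramsey (ZMod k × ZMod k) (2 * k * m + 1)
  refine ⟨N, ?_⟩
  intro ι _ F a B hF T hT
  obtain ⟨T', hT', hc, ⟨α, β⟩, hγ⟩ := hN ι (fun i j => (a i, B i j)) T hT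
  have hne : T'.Nonempty := by rw [← card_pos]; omega
  refine ⟨T'.erase (T'.max' hne), (erase_subset _ _).trans hT', ?_, ?_⟩
  · rw [card_erase_of_mem (T'.max'_mem hne), hc]; rfl
  · have hcard : (T'.erase (T'.max' hne)).card = 2 * k * m := by
      rw [card_erase_of_mem (T'.max'_mem hne), hc]; rfl
    have h1 : ∀ i ∈ T'.erase (T'.max' hne), i ∈ T' ∧ i < T'.max' hne := by
      intro i hi
      rw [mem_erase] at hi
      exact ⟨hi.2, lt_of_le_of_ne (T'.le_max' i hi.2) hi.1⟩
    rw [hF.homog α β _ (fun i hi => congrArg Prod.fst (hγ i (h1 i hi).1 _ (T'.max'_mem hne) (h1 i hi).2))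
      (fun i hi j hj hij => congrArg Prod.snd (hγ i (h1 i hi).1 j (h1 j hj).1 hij)), hcard]
    have e1 : (2 * k * m) • α = 0 := by
      rw [nsmul_eq_mul]; push_cast; simp
    have e2 : ((2 * k * m).choose 2) • β = 0 := by
      rw [nsmul_eq_mul]
      have : (2 * k * m).choose 2 = k * (m * (2 * k * m - 1)) := by
        rw [Nat.choose_two_right]
        rw [show 2 * k * m * (2 * k * m - 1) = 2 * (k * (m * (2 * k * m - 1))) by ring]
        simp
      rw [this]; push_cast; simp
    rw [e1, e2]; simp

end Pool.Agent.H730R3
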