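import Mathlib
import Pool.Agent.H730R3.Sums
import Pool.Agent.H730R3.GStruct

set_option autoImplicit false
set_option linter.all false

/-! Graphs with boundedly many twin classes. -/

namespace Pool.Agent.H730R3

open Finset

theorem twin_swap {V : Type} [DecidableEq V] {G : SimpleGraph V} {u v : V} (h : Twin G u v)
    (a b : V) (hab : G.Adj a b) : G.Adj (Equiv.swap u v a) (Equiv.swap u v b) := by
  have hne : a ≠ b := hab.ne
  by_cases hau : a = u
  · subst hau
    rw [Equiv.swap_apply_left]
    by_cases hbv : b = v
    · subst hbv; rw [Equiv.swap_apply_right]; exact hab.symm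
    · rw [Equiv.swap_apply_of_ne_of_ne hne.symm hbv]
      exact (h b hne.symm hbv).1 hab
  · by_cases hav : a = v
    · subst hav
      rw [Equiv.swap_apply_right]
      by_cases hbu : b = u
      · subst hbu; rw [Equiv.swap_apply_left]; exact hab.symm
      · rw [Equiv.swap_apply_of_ne_of_ne hbu hne.symm]
        exact (h b hbu hne.symm).2 hab
    · rw [Equiv.swap_apply_of_ne_of_ne hau hav]
      by_cases hbu : b = u
      · subst hbu; rw [Equiv.swap_apply_left]
        exact ((h a hau hav).1 hab.symm).symm
      · by_cases hbv : b = v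
        · subst hbv; rw [Equiv.swap_apply_right]
          exact ((h a hau hav).2 hab.symm).symm
        · rw [Equiv.swap_apply_of_ne_of_ne hbu hbv]; exact hab

theorem S_swap {V X A : Type} [Fintype V] [DecidableEq V] [AddCommGroup A] (G : SimpleGraph V)
    [DecidableRel G.Adj] (f : Sym2 X → A) (φ : V → X) (u v : V) (h : Twin G u v) :
    S G f (φ ∘ Equiv.swap u v) = S G f φ := by
  unfold S
  have hm : ∀ e ∈ G.edgeFinset, Sym2.map (Equiv.swap u v) e ∈ G.edgeFinset := by
    intro e he
    induction e using Sym2.ind with
    | _ a b =>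
    rw [SimpleGraph.mem_edgeFinset, SimpleGraph.mem_edgeSet] at he
    rw [Sym2.map_mk, SimpleGraph.mem_edgeFinset]
    exact twin_swap h a b he
  have hinv : ∀ e : Sym2 V, Sym2.map (Equiv.swap u v) (Sym2.map (Equiv.swap u v) e) = e := by
    intro e
    rw [Sym2.map_map]
    have : (Equiv.swap u v : V → V) ∘ (Equiv.swap u v) = id := by
      funext t; simp
    rw [this, Sym2.map_id]; rfl
  refine Finset.sum_nbij' (fun e => Sym2.map (Equiv.swap u v) e)
    (fun e => Sym2.map (Equiv.swap u v) e) hm hm (fun e _ => hinv e) (fun e _ => hinv e) ?_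
  intro e _
  rw [Sym2.map_map]

def optF {X A : Type} [AddCommGroup A] (f : Sym2 X → A) (a : A) : Sym2 (Option X) → A :=
  Sym2.lift ⟨fun p q => match p, q with
    | some x, some y => f s(x, y) - a
    | _, _ => 0, by
      intro p q
      cases p <;> cases q <;> simp [Sym2.eq_swap]⟩

theorem optF_some {X A : Type} [AddCommGroup A] (f : Sym2 X → A) (a : A) (x y : X) :
    optF f a s(some x, some y) = f s(x, y) - a := rfl

theorem optF_none_left {X A : Type} [AddCommGroup A] (f : Sym2 X → A) (a : A) (p : Option X) :
    optF f a s(none, p) = 0 := by cases p <;> rfl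

theorem optF_none_right {X A : Type} [AddCommGroup A] (f : Sym2 X → A) (a : A) (p : Option X) :
    optF f a s(p, none) = 0 := by cases p <;> rfl

theorem B_step (k : ℕ) [NeZero k] : ∃ c : ℕ, ∀ (Q : ℕ) (V X : Type) [Fintype V] [DecidableEq V]
    [Fintype X] [DecidableEq X] (G : SimpleGraph V) [DecidableRel G.Adj] (cl : V → Fin Q),
    (∀ u v, cl u = cl v → Twin G u v) → Fintype.card V + c ≤ Fintype.card X →
    ∀ (f : Sym2 X → ZMod k) (a : ZMod k) (φ : V → Option X),
      (∀ v w, φ v = φ w → φ v ≠ none → v = w) → S G (optF f a) φ = 0 →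
      (∀ j, 2 * k ∣ (univ.filter (fun v => cl v = j ∧ φ v = none)).card) →
      ∃ ρ : V → X, Function.Injective ρ ∧ S G (optF f a) (fun v => some (ρ v)) = 0 := by
  classical
  obtain ⟨N, hN⟩ := ramsey_symm (ZMod k) (2 * k)
  refine ⟨k * N, ?_⟩
  intro Q V X _ _ _ _ G _ cl htw hcard f a φ
  induction' hr : (univ.filter (fun v => φ v = none)).card using Nat.strong_induction_on with r ih
    generalizing φ
  intro hinj hS hdvd
  by_cases hr0 : ∀ v, φ v ≠ none
  · -- everything is placed
    have hex : ∀ v, ∃ x, φ v = some x := fun v => Option.ne_none_iff_exists'.1 (hr0 v)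
    choose ρ hρ using hex
    refine ⟨ρ, ?_, ?_⟩
    · intro v w hvw
      exact hinj v w (by rw [hρ v, hρ w, hvw]) (hr0 v)
    · rw [← hS]; congr 1; funext v; exact (hρ v).symm
  · push Not at hr0
    obtain ⟨v0, hv0⟩ := hr0
    set R := univ.filter (fun v => cl v = cl v0 ∧ φ v = none) with hR
    have hv0R : v0 ∈ R := mem_filter.2 ⟨mem_univ _, rfl, hv0⟩
    have hkpos : 0 < k := NeZero.pos k
    have hRc : 2 * k ≤ R.card := Nat.le_of_dvd (card_pos.2 ⟨v0, hv0R⟩) (hdvd (cl v0))
    obtain ⟨R', hR'sub, hR'c⟩ := Finset.exists_subset_card_eq hRc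
    have hR'n : ∀ v ∈ R', φ v = none := fun v hv => (mem_filter.1 (hR'sub hv)).2.2
    have hR'cl : ∀ v ∈ R', cl v = cl v0 := fun v hv => (mem_filter.1 (hR'sub hv)).2.1
    have hR'tw : ∀ u ∈ R', ∀ v ∈ R', Twin G u v := fun u hu v hv =>
      htw u v (by rw [hR'cl u hu, hR'cl v hv])
    -- free positions
    set P : Finset X := univ.filter (fun x => ∀ v, φ v ≠ some x) with hP
    have hPc : k * N ≤ P.card := by
      have h1 : (univ.filter (fun x : X => ¬ ∀ v, φ v ≠ some x)).card ≤ Fintype.card V := by
        have h3 : ∀ x ∈ univ.filter (fun x : X => ¬ ∀ v, φ v ≠ some x), ∃ v, φ v = some x := by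
          intro x hx
          have := (mem_filter.1 hx).2
          push Not at this
          exact this
        haveI : Nonempty V := ⟨v0⟩
        choose! g hg using h3
        rw [← card_univ (α := V)]
        apply Finset.card_le_card_of_injOn g (fun _ _ => mem_coe.2 (mem_univ _))
        intro x hx y hy hxy
        have h4 := hg x (mem_coe.1 hx)
        have h5 := hg y (mem_coe.1 hy)
        rw [hxy, h5] at h4
        exact (Option.some_injective _ h4).symm
      have h2 := Finset.card_filter_add_card_filter_not (s := (univ : Finset X))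
        (fun x => ∀ v, φ v ≠ some x)
      rw [card_univ, ← hP] at h2
      omega
    obtain ⟨lam, -, hlam⟩ := Finset.exists_le_card_fiber_of_mul_le_card_of_maps_to
      (s := P) (t := (univ : Finset (ZMod k)))
      (f := fun x => S G (optF f a) (Function.update φ v0 (some x))) (n := N)
      (fun _ _ => mem_univ _) univ_nonempty (by rw [card_univ, ZMod.card]; exact hPc)
    obtain ⟨P', hP'sub, hP'c, β, hβ⟩ := hN X (fun x y => f s(x, y))
      (fun x y => by rw [Sym2.eq_swap]) _ hlam
    have hP'free : ∀ x ∈ P', ∀ v, φ v ≠ some x := fun x hx =>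
      (mem_filter.1 (mem_filter.1 (hP'sub hx)).1).2
    have hP'lam : ∀ x ∈ P', S G (optF f a) (Function.update φ v0 (some x)) = lam := fun x hx =>
      (mem_filter.1 (hP'sub hx)).2
    have htwS : ∀ u ∈ R', ∀ x ∈ P', S G (optF f a) (Function.update φ u (some x)) = lam := by
      intro u hu x hx
      rw [← hP'lam x hx]
      have h1 := S_swap G (optF f a) (Function.update φ v0 (some x)) u v0
        (htw u v0 (hR'cl u hu))
      rw [← h1]
      congr 1
      funext t
      simp only [Function.comp]
      by_cases htu : t = u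
      · subst htu
        rw [Equiv.swap_apply_left, Function.update_self, Function.update_self]
      · by_cases htv : t = v0
        · subst htv
          rw [Equiv.swap_apply_right, Function.update_of_ne htu, Function.update_of_ne (Ne.symm htu),
            hv0, hR'n u hu]
        · rw [Equiv.swap_apply_of_ne_of_ne htu htv, Function.update_of_ne htu,
            Function.update_of_ne htv]
    have hadj : ∀ u ∈ R', ∀ u' ∈ R', ∀ w ∈ R', ∀ w' ∈ R', u ≠ u' → w ≠ w' →
        (G.Adj u u' → G.Adj w w') := by
      intro u hu u' hu' w hw w' hw' huu hww had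
      by_cases h : u' = w
      · subst h
        have h1 := (hR'tw u hu w' hw' u' (Ne.symm huu) hww).1 had
        exact h1.symm
      · have h1 := (hR'tw u hu w hw u' (Ne.symm huu) h).1 had
        have h2 := (hR'tw u' hu' w' hw' w (Ne.symm h) hww).1 h1.symm
        exact h2.symm
    let eR : R' ≃ Fin (2 * k) := Finset.equivFinOfCardEq hR'c
    let eP : P' ≃ Fin (2 * k) := Finset.equivFinOfCardEq hP'c
    let ψ : V → Option X := fun t => if h : t ∈ R' then some (eP.symm (eR ⟨t, h⟩)).1 else φ t
    have hψR : ∀ t (h : t ∈ R'), ψ t = some (eP.symm (eR ⟨t, h⟩)).1 := fun t h => by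
      simp only [ψ, dif_pos h]
    let W : Fin (2 * k) → Finset V := fun i => {(eR.symm i).1}
    have hW : ∀ i j, i ≠ j → Disjoint (W i) (W j) := by
      intro i j hij
      simp only [W, disjoint_singleton]
      intro h
      exact hij (eR.symm.injective (Subtype.ext h))
    have hψi : ∀ i, ψ (eR.symm i).1 = some (eP.symm i).1 := by
      intro i
      rw [hψR _ (eR.symm i).2]
      simp
    have hmixone : ∀ i, mix φ ψ (W i) = Function.update φ (eR.symm i).1 (some (eP.symm i).1) := by
      intro i
      funext t
      by_cases ht : t = (eR.symm i).1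
      · subst ht
        simp only [mix, W, mem_singleton, if_true, Function.update_self]
        exact hψi i
      · simp only [mix, W, mem_singleton, if_neg ht, Function.update_of_ne ht]
    have hquad := isQuad_blocks G (optF f a) φ ψ W hW
    have hhom := hquad.homog (lam - S G (optF f a) φ)
      (if (∃ u ∈ R', ∃ u' ∈ R', u ≠ u' ∧ G.Adj u u') then β - a else 0) univ (by
        intro i _
        rw [hmixone i, htwS _ (eR.symm i).2 _ (eP.symm i).2]) (by
        intro i _ j _ hij
        have hne : (eR.symm i).1 ≠ (eR.symm j).1 := by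
          intro h
          exact hij.ne (eR.symm.injective (Subtype.ext h))
        have hne' : (eP.symm i).1 ≠ (eP.symm j).1 := by
          intro h
          exact hij.ne (eP.symm.injective (Subtype.ext h))
        simp only [W, sum_singleton]
        have hd2 : d2 (optF f a) φ ψ (eR.symm i).1 (eR.symm j).1 = β - a := by
          unfold d2
          rw [hψi, hψi, hR'n _ (eR.symm i).2, hR'n _ (eR.symm j).2, optF_none_left,
            optF_none_right, optF_none_left, optF_some,
            hβ _ (eP.symm i).2 _ (eP.symm j).2 hne']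
          ring
        rw [hd2]
        by_cases had : G.Adj (eR.symm i).1 (eR.symm j).1
        · rw [if_pos had, if_pos ⟨_, (eR.symm i).2, _, (eR.symm j).2, hne, had⟩]
        · rw [if_neg had, if_neg]
          rintro ⟨u, hu, u', hu', huu, h⟩
          exact had (hadj u hu u' hu' _ (eR.symm i).2 _ (eR.symm j).2 huu hne h))
    have hunion : (univ : Finset (Fin (2 * k))).biUnion W = R' := by
      ext t
      rw [mem_biUnion]
      constructor
      · rintro ⟨i, _, hi⟩
        simp only [W, mem_singleton] at hi
        rw [hi]; exact (eR.symm i).2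
      · intro ht
        exact ⟨eR ⟨t, ht⟩, mem_univ _, by simp [W]⟩
    have hS1 : S G (optF f a) (mix φ ψ R') = 0 := by
      rw [hunion] at hhom
      rw [hhom, biUnion_empty, mix_empty, hS, card_univ, Fintype.card_fin]
      have e1 : ∀ α : ZMod k, (2 * k) • α = 0 := by
        intro α
        rw [nsmul_eq_mul]; push_cast; simp
      have e2 : ∀ α : ZMod k, ((2 * k).choose 2) • α = 0 := by
        intro α
        rw [nsmul_eq_mul]
        have : (2 * k).choose 2 = k * (2 * k - 1) := by
          rw [Nat.choose_two_right]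
          rw [show 2 * k * (2 * k - 1) = 2 * (k * (2 * k - 1)) by ring]
          simp
        rw [this]; push_cast; simp
      rw [e1, e2]; simp
    have hm1 : ∀ t (h : t ∈ R'), mix φ ψ R' t = some (eP.symm (eR ⟨t, h⟩)).1 := by
      intro t ht
      rw [← hψR t ht]; simp [mix, ht]
    have hm2 : ∀ t, t ∉ R' → mix φ ψ R' t = φ t := fun t ht => by simp [mix, ht]
    have hsub : (univ.filter (fun v => mix φ ψ R' v = none)).card < r := by
      rw [← hr]
      apply card_lt_card
      rw [ssubset_iff_of_subset]
      · have hne : R'.Nonempty := by rw [← card_pos, hR'c]; omega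
        obtain ⟨t, ht⟩ := hne
        refine ⟨t, mem_filter.2 ⟨mem_univ _, hR'n t ht⟩, ?_⟩
        intro h
        have h2 := (mem_filter.1 h).2
        rw [hm1 t ht] at h2
        exact absurd h2 (by simp)
      · intro t ht
        have h2 := (mem_filter.1 ht).2
        by_cases htW : t ∈ R'
        · exact mem_filter.2 ⟨mem_univ _, hR'n t htW⟩
        · rw [hm2 t htW] at h2
          exact mem_filter.2 ⟨mem_univ _, h2⟩
    refine ih _ hsub (mix φ ψ R') rfl ?_ hS1 ?_
    · intro v w hvw hne
      by_cases hv : v ∈ R'
      · by_cases hw : w ∈ R'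
        · rw [hm1 v hv, hm1 w hw] at hvw
          have h1 := eP.symm.injective (Subtype.ext (Option.some_injective _ hvw))
          exact congrArg Subtype.val (eR.injective h1)
        · rw [hm1 v hv, hm2 w hw] at hvw
          exact absurd hvw.symm (hP'free _ (eP.symm _).2 w)
      · by_cases hw : w ∈ R'
        · rw [hm2 v hv, hm1 w hw] at hvw
          exact absurd hvw (hP'free _ (eP.symm _).2 v)
        · rw [hm2 v hv, hm2 w hw] at hvw
          rw [hm2 v hv] at hne
          exact hinj v w hvw hne
    · intro j
      by_cases hj : j = cl v0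
      · subst hj
        have hset : univ.filter (fun v => cl v = cl v0 ∧ mix φ ψ R' v = none) = R \ R' := by
          ext t
          rw [mem_filter, mem_sdiff, hR, mem_filter]
          by_cases ht : t ∈ R'
          · rw [hm1 t ht]; simp [ht]
          · rw [hm2 t ht]; simp [ht]
        rw [hset, card_sdiff_of_subset hR'sub, hR'c]
        exact Nat.dvd_sub (hdvd (cl v0)) dvd_rfl
      · have hset : univ.filter (fun v => cl v = j ∧ mix φ ψ R' v = none)
            = univ.filter (fun v => cl v = j ∧ φ v = none) := by
          ext t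
          rw [mem_filter, mem_filter]
          by_cases ht : t ∈ R'
          · have : cl t ≠ j := fun h => hj (by rw [← h, hR'cl t ht])
            simp [this]
          · rw [hm2 t ht]
        rw [hset]
        exact hdvd j

theorem S_opt {V X : Type} [Fintype V] [DecidableEq V] (k : ℕ) (G : SimpleGraph V)
    [DecidableRel G.Adj] (hk : k ∣ G.edgeFinset.card) (f : Sym2 X → ZMod k) (a : ZMod k)
    (ρ : V → X) : S G (optF f a) (fun v => some (ρ v)) = S G f ρ := by
  unfold S
  have h : ∀ e ∈ G.edgeFinset, optF f a (Sym2.map (fun v => some (ρ v)) e)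
      = f (Sym2.map ρ e) - a := by
    intro e _
    induction e using Sym2.ind with
    | _ u v => rfl
  rw [sum_congr rfl h, sum_sub_distrib, sum_const, nsmul_eq_mul]
  obtain ⟨t, ht⟩ := hk
  rw [ht]
  push_cast
  simp

theorem lemmaB (k : ℕ) [NeZero k] (Q : ℕ) : ∃ c : ℕ, ∀ (V X : Type) [Fintype V] [DecidableEq V]
    [Fintype X] [DecidableEq X] (G : SimpleGraph V) [DecidableRel G.Adj] (cl : V → Fin Q),
    (∀ u v, cl u = cl v → Twin G u v) → k ∣ G.edgeFinset.card →
    Fintype.card V + c ≤ Fintype.card X → ∀ (f : Sym2 X → ZMod k),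
      ∃ ρ : V → X, Function.Injective ρ ∧ S G f ρ = 0 := by
  classical
  obtain ⟨c1, hc1⟩ := B_step k
  obtain ⟨N, hN⟩ := ramsey_symm (ZMod k) (2 * k * Q)
  refine ⟨c1 + N, ?_⟩
  intro V X _ _ _ _ G _ cl htw hk hcard f
  obtain ⟨Z, -, hZc, a, ha⟩ := hN X (fun x y => f s(x, y)) (fun x y => by rw [Sym2.eq_swap]) univ
    (by rw [card_univ]; omega)
  have hkpos : 0 < k := NeZero.pos k
  -- the remainder set
  have hex : ∀ j : Fin Q, ∃ R ⊆ univ.filter (fun v => cl v = j),
      R.card = (univ.filter (fun v => cl v = j)).card % (2 * k) := fun j =>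
    Finset.exists_subset_card_eq (Nat.mod_le _ _)
  choose R hR1 hR2 using hex
  set R0 : Finset V := univ.biUnion R with hR0
  have hR0c : R0.card ≤ Z.card := by
    have h1 := Finset.card_biUnion_le_card_mul (univ : Finset (Fin Q)) R (2 * k)
      (fun j _ => by rw [hR2]; exact (Nat.mod_lt _ (by omega)).le)
    rw [card_univ, Fintype.card_fin, ← hR0] at h1
    rw [hZc]
    calc R0.card ≤ Q * (2 * k) := h1
      _ = 2 * k * Q := by ring
  obtain ⟨Z', hZ', hZ'c⟩ := Finset.exists_subset_card_eq hR0c
  let e : R0 ≃ Z' := Finset.equivOfCardEq hZ'c.symm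
  let φ : V → Option X := fun t => if h : t ∈ R0 then some (e ⟨t, h⟩).1 else none
  have hφ1 : ∀ t (h : t ∈ R0), φ t = some (e ⟨t, h⟩).1 := fun t h => by simp only [φ, dif_pos h]
  have hφ2 : ∀ t, t ∉ R0 → φ t = none := fun t h => by simp only [φ, dif_neg h]
  obtain ⟨ρ, hρ, hS⟩ := hc1 Q V X G cl htw (by omega) f a φ (by
      intro v w hvw hne
      by_cases hv : v ∈ R0
      · by_cases hw : w ∈ R0
        · rw [hφ1 v hv, hφ1 w hw] at hvw
          have := e.injective (Subtype.ext (Option.some_injective _ hvw))
          exact congrArg Subtype.val this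
        · rw [hφ1 v hv, hφ2 w hw] at hvw
          exact absurd hvw (by simp)
      · exact absurd (hφ2 v hv) hne) (by
      unfold S
      apply sum_eq_zero
      intro e' he'
      induction e' using Sym2.ind with
      | _ u v =>
      rw [SimpleGraph.mem_edgeFinset, SimpleGraph.mem_edgeSet] at he'
      rw [Sym2.map_mk]
      by_cases hu : u ∈ R0
      · by_cases hv : v ∈ R0
        · rw [hφ1 u hu, hφ1 v hv, optF_some, ha _ (hZ' (e ⟨u, hu⟩).2) _ (hZ' (e ⟨v, hv⟩).2), sub_self]
          intro h
          have := e.injective (Subtype.ext h)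
          exact he'.ne (congrArg Subtype.val this)
        · rw [hφ2 v hv, optF_none_right]
      · rw [hφ2 u hu, optF_none_left]) (by
      intro j
      have hset : univ.filter (fun v => cl v = j ∧ φ v = none)
          = (univ.filter (fun v => cl v = j)) \ R j := by
        ext t
        rw [mem_filter, mem_sdiff, mem_filter]
        by_cases ht : t ∈ R0
        · rw [hφ1 t ht]
          simp only [mem_univ, true_and, reduceCtorEq, and_false, false_iff, not_and, not_not]
          intro hcl
          rw [hR0, mem_biUnion] at ht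
          obtain ⟨j', _, hj'⟩ := ht
          have := (mem_filter.1 (hR1 j' hj')).2
          rw [hcl] at this
          subst this
          exact hj'
        · rw [hφ2 t ht]
          simp only [mem_univ, true_and, and_true]
          constructor
          · intro h
            exact ⟨h, fun h' => ht (mem_biUnion.2 ⟨j, mem_univ _, h'⟩)⟩
          · intro h; exact h.1
      rw [hset, card_sdiff_of_subset (hR1 j), hR2]
      exact Nat.dvd_sub_mod _)
  exact ⟨ρ, hρ, by rw [← S_opt k G hk f a ρ]; exact hS⟩

end Pool.Agent.H730R3
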