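import Mathlib
import Pool.Agent.H730R3.Sums

set_option autoImplicit false
set_option linter.all false

/-! Arithmetic and Ramsey part of the prime step. -/

namespace Pool.Agent.H730R3

open Finset

theorem exists_kappa (k q : ℕ) (hk : k ≠ 0) (hq : q.Prime) :
    ∃ κ : ℕ, ordCompl[q] k ∣ κ ∧ ordCompl[q] k ∣ κ.choose 2 ∧ Nat.Coprime κ q ∧ κ ≤ 2 * k := by
  have hcop : Nat.Coprime q (ordCompl[q] k) := Nat.coprime_ordCompl hq hk
  have hle : ordCompl[q] k ≤ k := Nat.le_of_dvd (Nat.pos_of_ne_zero hk) (Nat.ordCompl_dvd k q)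
  set K := ordCompl[q] k with hK
  by_cases h2 : q = 2
  · subst h2
    refine ⟨K, dvd_rfl, ?_, hcop.symm, by omega⟩
    have hodd : Odd K := by
      rw [← Nat.coprime_two_left]; exact hcop
    obtain ⟨r, hr⟩ := hodd
    rw [Nat.choose_two_right]
    refine ⟨r, ?_⟩
    have : K * (K - 1) = 2 * (K * r) := by
      have : K - 1 = 2 * r := by omega
      rw [this]; ring
    rw [this]; simp
  · refine ⟨2 * K, Dvd.intro_left 2 rfl, ?_, ?_, by omega⟩
    · rw [Nat.choose_two_right]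
      refine ⟨2 * K - 1, ?_⟩
      rw [show 2 * K * (2 * K - 1) = 2 * (K * (2 * K - 1)) by ring]
      simp
    · have : Nat.Coprime 2 q := (Nat.coprime_primes Nat.prime_two hq).2 (Ne.symm h2)
      exact Nat.Coprime.mul_left this hcop.symm

theorem split_finset {ι : Type} [LinearOrder ι] (S : Finset ι) (a b : ℕ) (h : a + b ≤ S.card) :
    ∃ I B : Finset ι, I ⊆ S ∧ B ⊆ S ∧ I.card = a ∧ B.card = b ∧ ∀ i ∈ I, ∀ j ∈ B, i < j := by
  classical
  let e := S.orderEmbOfFin rfl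
  let g1 : Fin a → ι := fun i => e ⟨i.1, by omega⟩
  let g2 : Fin b → ι := fun j => e ⟨a + j.1, by omega⟩
  refine ⟨univ.image g1, univ.image g2, ?_, ?_, ?_, ?_, ?_⟩
  · intro x hx
    rw [mem_image] at hx
    obtain ⟨i, _, rfl⟩ := hx
    exact S.orderEmbOfFin_mem rfl _
  · intro x hx
    rw [mem_image] at hx
    obtain ⟨i, _, rfl⟩ := hx
    exact S.orderEmbOfFin_mem rfl _
  · rw [card_image_of_injective, card_univ, Fintype.card_fin]
    intro x y hxy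
    have h1 := e.injective hxy
    have h2 := congrArg Fin.val h1
    exact Fin.ext h2
  · rw [card_image_of_injective, card_univ, Fintype.card_fin]
    intro x y hxy
    have h1 := e.injective hxy
    have h2 := congrArg Fin.val h1
    exact Fin.ext (Nat.add_left_cancel h2)
  · intro i hi j hj
    rw [mem_image] at hi hj
    obtain ⟨i', _, rfl⟩ := hi
    obtain ⟨j', _, rfl⟩ := hj
    apply e.strictMono
    rw [Fin.lt_def]
    have := i'.2
    show i'.1 < a + j'.1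
    omega

theorem not_mem_smul {A : Type} [AddCommGroup A] (H M : AddSubgroup A) (q κ : ℕ)
    (hc : Nat.Coprime κ q) (hqM : ∀ x ∈ H, q • x ∈ M) (x : A) (hx : x ∈ H) (hxM : x ∉ M) :
    κ • x ∉ M := by
  intro h
  apply hxM
  have hb := Nat.gcd_eq_gcd_ab κ q
  rw [hc] at hb
  have : x = (Nat.gcdA κ q) • (κ • x) + (Nat.gcdB κ q) • (q • x) := by
    rw [← natCast_zsmul x κ, ← natCast_zsmul x q, smul_smul, smul_smul, ← add_smul]
    rw [mul_comm (Nat.gcdA κ q), mul_comm (Nat.gcdB κ q), ← hb]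
    simp
  rw [this]
  exact M.add_mem (M.zsmul_mem h _) (M.zsmul_mem (hqM x hx) _)

theorem P1 (k : ℕ) [NeZero k] (q : ℕ) (hq : q.Prime) : ∃ N : ℕ, ∀ (ι : Type) [LinearOrder ι]
    (H M : AddSubgroup (ZMod k)), (∀ x ∈ H, q • x ∈ M) → M ≤ H →
    ∀ (D : ι → ZMod k) (ε : ι → ι → ZMod k) (Fb : Finset ι → ZMod k) (E : ι → ZMod k)
      (E2 : ι → ι → ZMod k), IsQuad Fb E E2 → (∀ i, D i ∈ H) → (∀ i j, ε i j ∈ H) →
      (∀ i, ε i i ∉ M) → ∀ S : Finset ι, N ≤ S.card →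
      ∃ B I : Finset ι, B ⊆ S ∧ I ⊆ S ∧ k ≤ I.card ∧ ∃ D' ∈ H, D' ∉ M ∧
        (∀ i ∈ I, D i + ∑ j ∈ B, ε i j = D') ∧ ∃ c, Fb B = Fb ∅ + (ordCompl[q] k) • c := by
  classical
  have hk : k ≠ 0 := NeZero.ne k
  obtain ⟨κ, hκ1, hκ2, hκ3, hκ4⟩ := exists_kappa k q hk hq
  obtain ⟨N, hN⟩ := ramsey (ZMod k × ZMod k × ZMod k × ZMod k × ZMod k × ZMod k)
    (2 * k * k + 3 * k + 1)
  refine ⟨N, ?_⟩
  intro ι _ H M hqM hMH D ε Fb E E2 hFb hD hε hεM S hS
  obtain ⟨T', hT'S, hT'c, ⟨D0, ε0, E0, E20, ε1, ε2⟩, hγ⟩ :=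
    hN ι (fun i j => (D i, ε i i, E i, E2 i j, ε i j, ε j i)) S hS
  have hne : T'.Nonempty := by rw [← card_pos]; omega
  set T0 := T'.erase (T'.max' hne) with hT0
  have hT0c : T0.card = 2 * k * k + 3 * k := by
    rw [hT0, card_erase_of_mem (T'.max'_mem hne), hT'c]; rfl
  have h1 : ∀ i ∈ T0, i ∈ T' ∧ i < T'.max' hne := by
    intro i hi
    rw [hT0, mem_erase] at hi
    exact ⟨hi.2, lt_of_le_of_ne (T'.le_max' i hi.2) hi.1⟩
  have hT0S : T0 ⊆ S := fun i hi => hT'S (h1 i hi).1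
  have hDi : ∀ i ∈ T0, D i = D0 := fun i hi =>
    (Prod.ext_iff.1 (hγ i (h1 i hi).1 _ (T'.max'_mem hne) (h1 i hi).2)).1
  have hεii : ∀ i ∈ T0, ε i i = ε0 := fun i hi =>
    (Prod.ext_iff.1 (Prod.ext_iff.1 (hγ i (h1 i hi).1 _ (T'.max'_mem hne) (h1 i hi).2)).2).1
  have hEi : ∀ i ∈ T0, E i = E0 := fun i hi =>
    (Prod.ext_iff.1 (Prod.ext_iff.1 (Prod.ext_iff.1
      (hγ i (h1 i hi).1 _ (T'.max'_mem hne) (h1 i hi).2)).2).2).1
  have hE2i : ∀ i ∈ T0, ∀ j ∈ T0, i < j → E2 i j = E20 := fun i hi j hj hij =>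
    (Prod.ext_iff.1 (Prod.ext_iff.1 (Prod.ext_iff.1 (Prod.ext_iff.1
      (hγ i (h1 i hi).1 j (h1 j hj).1 hij)).2).2).2).1
  have hε1 : ∀ i ∈ T0, ∀ j ∈ T0, i < j → ε i j = ε1 := fun i hi j hj hij =>
    (Prod.ext_iff.1 (Prod.ext_iff.1 (Prod.ext_iff.1 (Prod.ext_iff.1 (Prod.ext_iff.1
      (hγ i (h1 i hi).1 j (h1 j hj).1 hij)).2).2).2).2).1
  have hε2 : ∀ i ∈ T0, ∀ j ∈ T0, i < j → ε j i = ε2 := fun i hi j hj hij =>
    (Prod.ext_iff.1 (Prod.ext_iff.1 (Prod.ext_iff.1 (Prod.ext_iff.1 (Prod.ext_iff.1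
      (hγ i (h1 i hi).1 j (h1 j hj).1 hij)).2).2).2).2).2
  have hkpos : 0 < k := Nat.pos_of_ne_zero hk
  have hT0ne : T0.Nonempty := by rw [← card_pos, hT0c]; positivity
  have hD0H : D0 ∈ H := by
    obtain ⟨i, hi⟩ := hT0ne
    rw [← hDi i hi]; exact hD i
  have hfb : ∀ B ⊆ T0, ordCompl[q] k ∣ B.card → ordCompl[q] k ∣ B.card.choose 2 →
      ∃ c, Fb B = Fb ∅ + (ordCompl[q] k) • c := by
    intro B hB hd1 hd2
    obtain ⟨r1, hr1⟩ := hd1
    obtain ⟨r2, hr2⟩ := hd2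
    refine ⟨r1 • E0 + r2 • E20, ?_⟩
    rw [hFb.homog E0 E20 B (fun i hi => hEi i (hB hi))
      (fun i hi j hj hij => hE2i i (hB hi) j (hB hj) hij), hr2]
    conv_lhs => rw [hr1]
    rw [smul_add, smul_smul, smul_smul, add_assoc]
  by_cases hDM : D0 ∈ M
  swap
  · -- case 0
    refine ⟨∅, T0, empty_subset _, hT0S, by rw [hT0c]; nlinarith, D0, hD0H, hDM, ?_, 0, by simp⟩
    intro i hi
    rw [sum_empty, add_zero, hDi i hi]
  by_cases h1M : ε1 ∈ M
  swap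
  · -- case 1
    obtain ⟨I, B, hI, hB, hIc, hBc, hIB⟩ := split_finset T0 k κ (by rw [hT0c]; nlinarith)
    have hsum : ∀ i ∈ I, D i + ∑ j ∈ B, ε i j = D0 + κ • ε1 := by
      intro i hi
      rw [hDi i (hI hi), sum_congr rfl (fun j hj => hε1 i (hI hi) j (hB hj) (hIB i hi j hj)),
        sum_const, hBc]
    have hε1H : ε1 ∈ H := by
      obtain ⟨I2, B2, hI2, hB2, hI2c, hB2c, hIB2⟩ := split_finset T0 1 1 (by rw [hT0c]; nlinarith)
      obtain ⟨i, hi⟩ := card_pos.1 (by rw [hI2c]; norm_num : 0 < I2.card)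
      obtain ⟨j, hj⟩ := card_pos.1 (by rw [hB2c]; norm_num : 0 < B2.card)
      rw [← hε1 i (hI2 hi) j (hB2 hj) (hIB2 i hi j hj)]
      exact hε i j
    refine ⟨B, I, hB.trans hT0S, hI.trans hT0S, hIc.ge, D0 + κ • ε1,
      H.add_mem hD0H (H.nsmul_mem hε1H _), ?_, hsum, ?_⟩
    · intro h
      exact not_mem_smul H M q κ hκ3 hqM ε1 hε1H h1M ((M.add_mem_cancel_left hDM).1 h)
    · exact hfb B hB (by rw [hBc]; exact hκ1) (by rw [hBc]; exact hκ2)
  by_cases h2M : ε2 ∈ M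
  swap
  · -- case 2
    obtain ⟨B, I, hB, hI, hBc, hIc, hIB⟩ := split_finset T0 κ k (by rw [hT0c]; nlinarith)
    have hsum : ∀ i ∈ I, D i + ∑ j ∈ B, ε i j = D0 + κ • ε2 := by
      intro i hi
      rw [hDi i (hI hi), sum_congr rfl (fun j hj => hε2 j (hB hj) i (hI hi) (hIB j hj i hi)),
        sum_const, hBc]
    have hε2H : ε2 ∈ H := by
      obtain ⟨I2, B2, hI2, hB2, hI2c, hB2c, hIB2⟩ := split_finset T0 1 1 (by rw [hT0c]; nlinarith)
      obtain ⟨i, hi⟩ := card_pos.1 (by rw [hI2c]; norm_num : 0 < I2.card)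
      obtain ⟨j, hj⟩ := card_pos.1 (by rw [hB2c]; norm_num : 0 < B2.card)
      rw [← hε2 i (hI2 hi) j (hB2 hj) (hIB2 i hi j hj)]
      exact hε j i
    refine ⟨B, I, hB.trans hT0S, hI.trans hT0S, hIc.ge, D0 + κ • ε2,
      H.add_mem hD0H (H.nsmul_mem hε2H _), ?_, hsum, ?_⟩
    · intro h
      exact not_mem_smul H M q κ hκ3 hqM ε2 hε2H h2M ((M.add_mem_cancel_left hDM).1 h)
    · exact hfb B hB (by rw [hBc]; exact hκ1) (by rw [hBc]; exact hκ2)
  -- case 3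
  obtain ⟨B, hB, hBc⟩ := Finset.exists_subset_card_eq (s := T0) (n := 2 * k * k)
    (by rw [hT0c]; omega)
  obtain ⟨D', -, hD'⟩ := Finset.exists_le_card_fiber_of_mul_le_card_of_maps_to
    (s := B) (t := (univ : Finset (ZMod k))) (f := fun i => D i + ∑ j ∈ B, ε i j) (n := k)
    (fun _ _ => mem_univ _) univ_nonempty (by
      rw [card_univ, ZMod.card, hBc]; nlinarith)
  have hI : ∀ i ∈ B.filter (fun i => D i + ∑ j ∈ B, ε i j = D'), i ∈ B ∧
      D i + ∑ j ∈ B, ε i j = D' := fun i hi => mem_filter.1 hi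
  obtain ⟨i, hi⟩ := card_pos.1 (lt_of_lt_of_le hkpos hD')
  obtain ⟨hiB, hiD⟩ := hI i hi
  have hεM' : ∀ j ∈ B.erase i, ε i j ∈ M := by
    intro j hj
    rw [mem_erase] at hj
    rcases lt_or_gt_of_ne hj.1 with h | h
    · rw [hε2 j (hB hj.2) i (hB hiB) h]; exact h2M
    · rw [hε1 i (hB hiB) j (hB hj.2) h]; exact h1M
  refine ⟨B, B.filter (fun i => D i + ∑ j ∈ B, ε i j = D'), hB.trans hT0S,
    (filter_subset _ _).trans (hB.trans hT0S), hD', D', ?_, ?_, fun i hi => (hI i hi).2, ?_⟩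
  · rw [← hiD]
    exact H.add_mem (hD i) (H.sum_mem (fun j _ => hε i j))
  · rw [← hiD, ← Finset.add_sum_erase B _ hiB, hDi i (hB hiB)]
    intro h
    rw [M.add_mem_cancel_left hDM, M.add_mem_cancel_right (M.sum_mem hεM')] at h
    exact hεM i h
  · apply hfb B hB
    · rw [hBc]
      exact dvd_mul_of_dvd_right (Nat.ordCompl_dvd k q) _
    · rw [hBc]
      have : (2 * k * k).choose 2 = k * (k * (2 * k * k - 1)) := by
        rw [Nat.choose_two_right]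
        rw [show 2 * k * k * (2 * k * k - 1) = 2 * (k * (k * (2 * k * k - 1))) by ring]
        simp
      rw [this]
      exact dvd_mul_of_dvd_left (Nat.ordCompl_dvd k q) _

theorem NT (k : ℕ) [NeZero k] (q : ℕ) (hq : q.Prime) (H : AddSubgroup (ZMod k)) (s D : ZMod k)
    (hs : s ∈ H) (hD : D ∈ H) (hDq : ∀ y ∈ H, q • y ≠ D) :
    ∃ t : ℕ, ordCompl[q] k * t ≤ k ∧ (ordCompl[q] k) • (s + (ordCompl[q] k * t) • D) = 0 := by
  have hk : k ≠ 0 := NeZero.ne k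
  have hcop : Nat.Coprime q (ordCompl[q] k) := Nat.coprime_ordCompl hq hk
  have hmul : ordProj[q] k * ordCompl[q] k = k := Nat.ordProj_mul_ordCompl_eq_self k q
  set K := ordCompl[q] k with hK
  set P := ordProj[q] k with hP
  obtain ⟨⟨g, hgH⟩, hg⟩ := IsAddCyclic.exists_generator (α := H)
  have hgen : ∀ x ∈ H, ∃ n : ℤ, n • g = x := by
    intro x hx
    obtain ⟨n, hn⟩ := AddSubgroup.mem_zmultiples_iff.1 (hg ⟨x, hx⟩)
    exact ⟨n, congrArg Subtype.val hn⟩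
  obtain ⟨m, hm⟩ := hgen s hs
  obtain ⟨n, hn⟩ := hgen D hD
  have hqn : ¬ (q : ℤ) ∣ n := by
    rintro ⟨n', rfl⟩
    apply hDq (n' • g) (H.zsmul_mem hgH _)
    rw [← hn, mul_smul, natCast_zsmul]
  have hcop2 : IsCoprime ((K : ℤ) * n) (P : ℤ) := by
    rw [hP]
    push_cast
    apply IsCoprime.pow_right
    apply IsCoprime.mul_left
    · rw [Nat.isCoprime_iff_coprime]; exact hcop.symm
    · exact ((Nat.prime_iff_prime_int.1 hq).coprime_iff_not_dvd.2 hqn).symm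
  obtain ⟨u, v, huv⟩ := hcop2
  have hPpos : 0 < P := by rw [hP]; exact Nat.ordProj_pos k q
  have hPz : (0 : ℤ) < P := by exact_mod_cast hPpos
  obtain ⟨t, ht⟩ : ∃ t : ℕ, (t : ℤ) = (-m * u) % P :=
    ⟨((-m * u) % P).toNat, Int.toNat_of_nonneg (Int.emod_nonneg _ hPz.ne')⟩
  have htP : t < P := by
    have := Int.emod_lt_of_pos (-m * u) hPz
    rw [← ht] at this
    exact_mod_cast this
  refine ⟨t, ?_, ?_⟩
  · calc K * t ≤ K * P := Nat.mul_le_mul_left _ htP.le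
      _ = k := by rw [mul_comm]; exact hmul
  · have hdvd : (P : ℤ) ∣ m + K * t * n := by
      have h1 : (P : ℤ) ∣ (-m * u) - t := by
        rw [ht]; exact Int.dvd_self_sub_emod
      obtain ⟨w, hw⟩ := h1
      refine ⟨m * v - K * n * w, ?_⟩
      have h2 : (t : ℤ) = -m * u - P * w := by linarith
      rw [h2]
      have h3 : u * (K * n) = 1 - v * P := by linarith
      calc m + K * (-m * u - P * w) * n = m - m * (u * (K * n)) - P * (K * n * w) := by ring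
        _ = P * (m * v - K * n * w) := by rw [h3]; ring
    obtain ⟨w, hw⟩ := hdvd
    have hkz : ((k : ℕ) : ℤ) • g = 0 := by
      rw [natCast_zsmul, nsmul_eq_mul]; simp
    rw [← hm, ← hn, ← natCast_zsmul _ (K * t), smul_smul, ← add_smul, ← natCast_zsmul, smul_smul]
    push_cast
    rw [hw, ← mul_assoc]
    have : (K : ℤ) * P = (k : ℕ) := by
      rw [← hmul]; push_cast; ring
    rw [this, mul_comm, mul_smul, hkz, smul_zero]

end Pool.Agent.H730R3
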