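import Mathlib
import Pool.Agent.H730R3.PrimeA
import Pool.Agent.H730R3.FStruct

set_option autoImplicit false
set_option linter.all false

/-! The prime step: killing the `q`-part of the sum by swaps inside gadgets. -/

namespace Pool.Agent.H730R3

open Finset

section
variable {V X A : Type} [Fintype V] [DecidableEq V] [AddCommGroup A]

theorem mix_swap (φ ψ : V → X) (W : Finset V) (u v : V) (huv : u ≠ v) (hu : u ∉ W) (hv : v ∉ W)
    (hψu : ψ u = φ v) (hψv : ψ v = φ u) :
    mix φ ψ ({u, v} ∪ W) = (mix φ ψ W) ∘ (Equiv.swap u v) := by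
  funext t
  simp only [Function.comp]
  by_cases htu : t = u
  · subst htu
    rw [Equiv.swap_apply_left]
    simp [mix, hv, hψu]
  · by_cases htv : t = v
    · subst htv
      rw [Equiv.swap_apply_right]
      simp [mix, hu, hψv]
    · rw [Equiv.swap_apply_of_ne_of_ne htu htv]
      simp [mix, htu, htv]

theorem S_swap_mem (H : AddSubgroup A) (G : SimpleGraph V) [DecidableRel G.Adj] (f : Sym2 X → A)
    (χ : V → X) (u v : V) (h : ∀ t, t ≠ u → t ≠ v → f s(χ t, χ u) - f s(χ t, χ v) ∈ H) :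
    S G f (χ ∘ Equiv.swap u v) - S G f χ ∈ H := by
  unfold S
  rw [← sum_sub_distrib]
  apply H.sum_mem
  intro e he
  induction e using Sym2.ind with
  | _ a b =>
  rw [SimpleGraph.mem_edgeFinset, SimpleGraph.mem_edgeSet] at he
  have hab : a ≠ b := he.ne
  simp only [Sym2.map_mk, Function.comp]
  have h' : ∀ t, t ≠ u → t ≠ v → f s(χ t, χ v) - f s(χ t, χ u) ∈ H := by
    intro t h1 h2
    rw [← neg_sub]
    exact H.neg_mem (h t h1 h2)
  by_cases hau : a = u
  · subst hau
    rw [Equiv.swap_apply_left]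
    by_cases hbv : b = v
    · subst hbv
      rw [Equiv.swap_apply_right, Sym2.eq_swap, sub_self]; exact H.zero_mem
    · rw [Equiv.swap_apply_of_ne_of_ne hab.symm hbv, Sym2.eq_swap (a := χ v),
        Sym2.eq_swap (a := χ a)]
      exact h' b hab.symm hbv
  · by_cases hav : a = v
    · subst hav
      rw [Equiv.swap_apply_right]
      by_cases hbu : b = u
      · subst hbu
        rw [Equiv.swap_apply_left, Sym2.eq_swap, sub_self]; exact H.zero_mem
      · rw [Equiv.swap_apply_of_ne_of_ne hbu hab.symm, Sym2.eq_swap (a := χ u),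
          Sym2.eq_swap (a := χ a)]
        exact h b hbu hab.symm
    · rw [Equiv.swap_apply_of_ne_of_ne hau hav]
      by_cases hbu : b = u
      · subst hbu
        rw [Equiv.swap_apply_left]
        exact h' a hau hav
      · by_cases hbv : b = v
        · subst hbv
          rw [Equiv.swap_apply_right]
          exact h a hau hav
        · rw [Equiv.swap_apply_of_ne_of_ne hbu hbv, sub_self]; exact H.zero_mem

/-- second difference of two swaps -/
theorem d2_swaps (G : SimpleGraph V) [DecidableRel G.Adj] (f : Sym2 X → A) (φ ψ : V → X)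
    (u v s t : V) (huv : u ≠ v) (hst : s ≠ t) (h1 : ψ u = φ v) (h2 : ψ v = φ u) (h3 : ψ s = φ t)
    (h4 : ψ t = φ s) :
    (∑ a ∈ ({u, v} : Finset V), ∑ b ∈ ({s, t} : Finset V),
      if G.Adj a b then d2 f φ ψ a b else 0) =
      (if G.Adj u s then Del f (φ u) (φ v) (φ s) (φ t) else 0)
      - (if G.Adj u t then Del f (φ u) (φ v) (φ s) (φ t) else 0)
      - (if G.Adj v s then Del f (φ u) (φ v) (φ s) (φ t) else 0)
      + (if G.Adj v t then Del f (φ u) (φ v) (φ s) (φ t) else 0) := by
  rw [sum_pair huv, sum_pair hst, sum_pair hst]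
  have e1 : d2 f φ ψ u s = Del f (φ u) (φ v) (φ s) (φ t) := by
    unfold d2 Del
    rw [h1, h3, Sym2.eq_swap (a := φ v) (b := φ t), Sym2.eq_swap (a := φ v) (b := φ s),
      Sym2.eq_swap (a := φ u) (b := φ t), Sym2.eq_swap (a := φ u) (b := φ s)]
    abel
  have e2 : d2 f φ ψ u t = - Del f (φ u) (φ v) (φ s) (φ t) := by
    unfold d2 Del
    rw [h1, h4, Sym2.eq_swap (a := φ v) (b := φ t), Sym2.eq_swap (a := φ v) (b := φ s),
      Sym2.eq_swap (a := φ u) (b := φ t), Sym2.eq_swap (a := φ u) (b := φ s)]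
    abel
  have e3 : d2 f φ ψ v s = - Del f (φ u) (φ v) (φ s) (φ t) := by
    unfold d2 Del
    rw [h2, h3, Sym2.eq_swap (a := φ v) (b := φ t), Sym2.eq_swap (a := φ v) (b := φ s),
      Sym2.eq_swap (a := φ u) (b := φ t), Sym2.eq_swap (a := φ u) (b := φ s)]
    abel
  have e4 : d2 f φ ψ v t = Del f (φ u) (φ v) (φ s) (φ t) := by
    unfold d2 Del
    rw [h2, h4, Sym2.eq_swap (a := φ v) (b := φ t), Sym2.eq_swap (a := φ v) (b := φ s),
      Sym2.eq_swap (a := φ u) (b := φ t), Sym2.eq_swap (a := φ u) (b := φ s)]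
    abel
  rw [e1, e2, e3, e4]
  split_ifs <;> abel

end

theorem primeStep (k : ℕ) [NeZero k] (q : ℕ) (hq : q.Prime) : ∃ N : ℕ, ∀ (V X ι : Type) [Fintype V]
    [DecidableEq V] [Fintype ι] [LinearOrder ι] (G : SimpleGraph V) [DecidableRel G.Adj]
    (f : Sym2 X → ZMod k) (H M : AddSubgroup (ZMod k)), M ≤ H → (∀ x, x ∈ M ↔ ∃ y ∈ H, q • y = x) →
    ∀ (X1 : Set X) (φ : V → X), Function.Injective φ → (∀ v, φ v ∈ X1) →
    N ≤ Fintype.card ι →
    ∀ c : ι → Fin 4 → V, Function.Injective (fun p : ι × Fin 4 => c p.1 p.2) →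
    ∀ b : Prop, (∀ i j, i ≠ j → (G.Adj (c i 0) (c j 0) ↔ b) ∧ (G.Adj (c i 0) (c j 1) ↔ b) ∧
      (G.Adj (c i 1) (c j 0) ↔ b) ∧ (G.Adj (c i 1) (c j 1) ↔ b)) →
    (∀ i, ¬ (G.Adj (c i 0) (c i 2) ↔ G.Adj (c i 1) (c i 2))) →
    (∀ i v, ¬ G.Adj v (c i 3)) →
    (∀ i, ∀ x ∈ X1, x ≠ φ (c i 0) → x ≠ φ (c i 1) → f s(x, φ (c i 0)) - f s(x, φ (c i 1)) ∈ H) →
    (∀ i, ∀ x ∈ X1, x ≠ φ (c i 2) → x ≠ φ (c i 3) → f s(x, φ (c i 2)) - f s(x, φ (c i 3)) ∈ H) →
    (∀ i, Del f (φ (c i 0)) (φ (c i 1)) (φ (c i 2)) (φ (c i 3)) ∉ M) →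
    S G f φ ∈ H →
    ∃ φ' : V → X, Function.Injective φ' ∧ (∀ v, φ' v ∈ X1) ∧
      (∀ v, (∀ i a, v ≠ c i a) → φ' v = φ v) ∧ S G f φ' ∈ H ∧ (ordCompl[q] k) • S G f φ' = 0 ∧
      ∃ x, S G f φ' = S G f φ + (ordCompl[q] k) • x := by
  classical
  obtain ⟨N, hN⟩ := P1 k q hq
  refine ⟨N, ?_⟩
  intro V X ι _ _ _ _ G _ f H M hMH hMq X1 φ hφi hφX hcard c hc b hb hdist hiso htw1 htw2 hdel hS
  -- the swapped map
  let σ : Fin 4 → Fin 4 := ![1, 0, 3, 2]
  let ψ : V → X := Function.extend (fun p : ι × Fin 4 => c p.1 p.2)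
    (fun p => φ (c p.1 (σ p.2))) φ
  have hψ : ∀ i a, ψ (c i a) = φ (c i (σ a)) := fun i a =>
    hc.extend_apply (fun p : ι × Fin 4 => φ (c p.1 (σ p.2))) φ (i, a)
  have hψ0 : ∀ i, ψ (c i 0) = φ (c i 1) := fun i => hψ i 0
  have hψ1 : ∀ i, ψ (c i 1) = φ (c i 0) := fun i => hψ i 1
  have hψ2 : ∀ i, ψ (c i 2) = φ (c i 3) := fun i => hψ i 2
  have hψ3 : ∀ i, ψ (c i 3) = φ (c i 2) := fun i => hψ i 3
  have hcne : ∀ i j a b, (i ≠ j ∨ a ≠ b) → c i a ≠ c j b := by
    intro i j a b hor h
    have := hc (a₁ := (i, a)) (a₂ := (j, b)) h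
    rw [Prod.ext_iff] at this
    rcases hor with h' | h'
    · exact h' this.1
    · exact h' this.2
  let W : ι × Bool → Finset V := fun p => if p.2 = true then {c p.1 2, c p.1 3} else {c p.1 0, c p.1 1}
  have hWt : ∀ i, W (i, true) = {c i 2, c i 3} := fun i => by simp [W]
  have hWf : ∀ i, W (i, false) = {c i 0, c i 1} := fun i => by simp [W]
  have hW : ∀ p p', p ≠ p' → Disjoint (W p) (W p') := by
    rintro ⟨i, x⟩ ⟨j, y⟩ hne
    rw [disjoint_left]
    intro v hv hv'
    rcases x with _ | _ <;> rcases y with _ | _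
    · have hij : i ≠ j := fun h => hne (by rw [h])
      rw [hWf] at hv hv'
      simp only [mem_insert, mem_singleton] at hv hv'
      rcases hv with rfl | rfl <;> rcases hv' with h | h <;> exact hcne _ _ _ _ (Or.inl hij) h
    · rw [hWf] at hv
      rw [hWt] at hv'
      simp only [mem_insert, mem_singleton] at hv hv'
      rcases hv with rfl | rfl <;> rcases hv' with h | h <;>
        exact hcne _ _ _ _ (Or.inr (by decide)) h
    · rw [hWt] at hv
      rw [hWf] at hv'
      simp only [mem_insert, mem_singleton] at hv hv'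
      rcases hv with rfl | rfl <;> rcases hv' with h | h <;>
        exact hcne _ _ _ _ (Or.inr (by decide)) h
    · have hij : i ≠ j := fun h => hne (by rw [h])
      rw [hWt] at hv hv'
      simp only [mem_insert, mem_singleton] at hv hv'
      rcases hv with rfl | rfl <;> rcases hv' with h | h <;> exact hcne _ _ _ _ (Or.inl hij) h
  have hquad := isQuad_blocks G f φ ψ W hW
  set F : Finset (ι × Bool) → ZMod k := fun Y => S G f (mix φ ψ (Y.biUnion W)) with hF
  set a : ι × Bool → ZMod k := fun i => S G f (mix φ ψ (W i)) - S G f φ with ha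
  set Bq : ι × Bool → ι × Bool → ZMod k :=
    fun i j => ∑ u ∈ W i, ∑ v ∈ W j, if G.Adj u v then d2 f φ ψ u v else 0 with hBq
  have hF0 : F ∅ = S G f φ := by simp only [hF, biUnion_empty, mix_empty]
  -- invariants of all partial swaps
  have hinv : ∀ Z : Finset (ι × Bool), Function.Injective (mix φ ψ (Z.biUnion W)) ∧
      (∀ v, mix φ ψ (Z.biUnion W) v ∈ X1) ∧ F Z ∈ H := by
    intro Z
    induction Z using Finset.induction_on with
    | empty =>
      refine ⟨?_, ?_, ?_⟩
      · rw [biUnion_empty, mix_empty]; exact hφi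
      · rw [biUnion_empty, mix_empty]; exact hφX
      · rw [hF0]; exact hS
    | insert p Z hp ih =>
      obtain ⟨ih1, ih2, ih3⟩ := ih
      have hdis : Disjoint (W p) (Z.biUnion W) := by
        rw [disjoint_biUnion_right]
        intro j hj
        exact hW p j (fun h => hp (h ▸ hj))
      obtain ⟨i, x⟩ := p
      have key : ∃ u v, W (i, x) = {u, v} ∧ u ≠ v ∧ ψ u = φ v ∧ ψ v = φ u ∧
          ∀ y ∈ X1, y ≠ φ u → y ≠ φ v → f s(y, φ u) - f s(y, φ v) ∈ H := by
        rcases x with _ | _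
        · exact ⟨c i 0, c i 1, hWf i, hcne _ _ _ _ (Or.inr (by decide)), hψ0 i, hψ1 i, htw1 i⟩
        · exact ⟨c i 2, c i 3, hWt i, hcne _ _ _ _ (Or.inr (by decide)), hψ2 i, hψ3 i, htw2 i⟩
      obtain ⟨u, v, hWuv, huv, hu, hv, htw⟩ := key
      rw [hWuv] at hdis
      have huZ : u ∉ Z.biUnion W := fun h => disjoint_left.1 hdis (by simp) h
      have hvZ : v ∉ Z.biUnion W := fun h => disjoint_left.1 hdis (by simp) h
      have hms := mix_swap φ ψ (Z.biUnion W) u v huv huZ hvZ hu hv
      have hmu : mix φ ψ (Z.biUnion W) u = φ u := by simp [mix, huZ]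
      have hmv : mix φ ψ (Z.biUnion W) v = φ v := by simp [mix, hvZ]
      refine ⟨?_, ?_, ?_⟩
      · rw [biUnion_insert, hWuv, hms]
        exact ih1.comp (Equiv.injective _)
      · rw [biUnion_insert, hWuv, hms]
        intro t
        exact ih2 _
      · simp only [hF]
        rw [biUnion_insert, hWuv, hms]
        have h1 := S_swap_mem H G f (mix φ ψ (Z.biUnion W)) u v (by
          intro t htu htv
          rw [hmu, hmv]
          apply htw _ (ih2 t)
          · intro h; rw [← hmu] at h; exact htu (ih1 h)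
          · intro h; rw [← hmv] at h; exact htv (ih1 h))
        have h2 := H.add_mem h1 ih3
        simp only [hF, sub_add_cancel] at h2
        exact h2
  have haH : ∀ p, a p ∈ H := by
    intro p
    have h1 := (hinv {p}).2.2
    simp only [hF, singleton_biUnion] at h1
    simp only [ha]
    exact H.sub_mem h1 hS
  have hBqH : ∀ p p', p ≠ p' → Bq p p' ∈ H := by
    intro p p' hne
    have h1 := hquad p {p'} (by simpa using hne)
    rw [sum_singleton] at h1
    have h2 : Bq p p' = F (insert p {p'}) - F {p'} - a p := by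
      rw [h1]; abel
    rw [h2]
    exact H.sub_mem (H.sub_mem (hinv _).2.2 (hinv _).2.2) (haH p)
  have hyy : ∀ i j, i ≠ j → Bq (i, false) (j, false) = 0 := by
    intro i j hij
    simp only [hBq]
    rw [hWf, hWf, d2_swaps G f φ ψ _ _ _ _ (hcne _ _ _ _ (Or.inr (by decide)))
      (hcne _ _ _ _ (Or.inr (by decide))) (hψ0 i) (hψ1 i) (hψ0 j) (hψ1 j)]
    obtain ⟨b1, b2, b3, b4⟩ := hb i j hij
    simp only [b1, b2, b3, b4]
    split_ifs <;> simp
  have hyb : ∀ i, Bq (i, false) (i, true) ∉ M := by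
    intro i
    simp only [hBq]
    rw [hWf, hWt, d2_swaps G f φ ψ _ _ _ _ (hcne _ _ _ _ (Or.inr (by decide)))
      (hcne _ _ _ _ (Or.inr (by decide))) (hψ0 i) (hψ1 i) (hψ2 i) (hψ3 i)]
    rw [if_neg (hiso i (c i 0)), if_neg (hiso i (c i 1))]
    have hd := hdist i
    by_cases h1 : G.Adj (c i 0) (c i 2)
    · have h2 : ¬ G.Adj (c i 1) (c i 2) := fun h => hd ⟨fun _ => h, fun _ => h1⟩
      rw [if_pos h1, if_neg h2]
      simpa using hdel i
    · have h2 : G.Adj (c i 1) (c i 2) := by
        by_contra h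
        exact hd ⟨fun h' => absurd h' h1, fun h' => absurd h' h⟩
      rw [if_neg h1, if_pos h2]
      intro h
      apply hdel i
      have := M.neg_mem h
      simpa using this
  -- the function of the b-flips alone
  have hFb : IsQuad (fun B : Finset ι => F (B.image (fun i => (i, true))))
      (fun i => a (i, true)) (fun i j => Bq (i, true) (j, true)) := by
    intro i Y hi
    simp only
    rw [image_insert, hquad (i, true) _ (by simpa using hi), sum_image]
    intro x _ y _ hxy
    exact (Prod.ext_iff.1 hxy).1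
  obtain ⟨B, I, -, -, hIc, D', hD'H, hD'M, hD', x0, hx0⟩ := hN ι H M
    (fun x hx => (hMq _).2 ⟨x, hx, rfl⟩) hMH (fun i => a (i, false))
    (fun i j => Bq (i, false) (j, true)) _ _ _ hFb (fun i => haH _)
    (fun i j => hBqH _ _ (by simp)) hyb univ (by rw [card_univ]; exact hcard)
  simp only [image_empty] at hx0
  rw [hF0] at hx0
  obtain ⟨t, ht1, ht2⟩ := NT k q hq H (F (B.image (fun i => (i, true)))) D' (hinv _).2.2 hD'H
    (fun y hy h => hD'M ((hMq _).2 ⟨y, hy, h⟩))
  obtain ⟨Y, hYI, hYc⟩ := Finset.exists_subset_card_eq (s := I) (n := ordCompl[q] k * t)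
    (by omega)
  have hsum : ∀ Y' : Finset ι, Y' ⊆ I →
      F (Y'.image (fun i => (i, false)) ∪ B.image (fun i => (i, true)))
        = F (B.image (fun i => (i, true))) + Y'.card • D' := by
    intro Y'
    induction Y' using Finset.induction_on with
    | empty => intro _; simp
    | insert i Y' hi ih =>
      intro hsub
      have hiI : i ∈ I := hsub (mem_insert_self _ _)
      rw [image_insert, insert_union, hquad (i, false) _ (by simpa using hi),
        ih (fun j hj => hsub (mem_insert_of_mem hj)), card_insert_of_notMem hi]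
      have hdj : Disjoint (Y'.image (fun i => (i, false))) (B.image (fun i => (i, true))) := by
        rw [disjoint_left]
        intro p hp hp'
        rw [mem_image] at hp hp'
        obtain ⟨x, _, rfl⟩ := hp
        obtain ⟨y, _, hy⟩ := hp'
        simp at hy
      rw [sum_union hdj, sum_image (fun x _ y _ hxy => (Prod.ext_iff.1 hxy).1),
        sum_image (fun x _ y _ hxy => (Prod.ext_iff.1 hxy).1)]
      have h0 : ∑ j ∈ Y', Bq (i, false) (j, false) = 0 :=
        sum_eq_zero (fun j hj => hyy i j (fun h => hi (h ▸ hj)))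
      rw [h0, zero_add, add_smul, one_smul, ← hD' i hiI]
      abel
  have hfin := hsum Y hYI
  rw [hYc] at hfin
  set Zf := Y.image (fun i => (i, false)) ∪ B.image (fun i => (i, true)) with hZf
  refine ⟨mix φ ψ (Zf.biUnion W), (hinv Zf).1, (hinv Zf).2.1, ?_, (hinv Zf).2.2, ?_, ?_⟩
  · intro v hv
    have hvW : v ∉ Zf.biUnion W := by
      intro h
      rw [mem_biUnion] at h
      obtain ⟨⟨i, x⟩, _, h2⟩ := h
      rcases x with _ | _
      · rw [hWf] at h2
        simp only [mem_insert, mem_singleton] at h2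
        rcases h2 with h2 | h2 <;> exact hv i _ h2
      · rw [hWt] at h2
        simp only [mem_insert, mem_singleton] at h2
        rcases h2 with h2 | h2 <;> exact hv i _ h2
    simp [mix, hvW]
  · change (ordCompl[q] k) • F Zf = 0
    rw [hfin]; exact ht2
  · refine ⟨x0 + t • D', ?_⟩
    change F Zf = _
    rw [hfin, hx0, mul_smul, smul_add, add_assoc]

end Pool.Agent.H730R3
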