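import Mathlib
import Pool.Agent.H730R3.Sums

set_option autoImplicit false
set_option linter.all false

/-! The unstacking process: all but boundedly many vertices stacked on one point can be moved to
free positions without changing the sum. -/

namespace Pool.Agent.H730R3

open Finset

theorem process (k : ℕ) [NeZero k] : ∃ M : ℕ, ∀ (V X : Type) [Fintype V] [DecidableEq V]
    [DecidableEq X] (G : SimpleGraph V) [DecidableRel G.Adj] (f : Sym2 X → ZMod k) (z0 : X)
    (X0 : Finset X), z0 ∉ X0 → Fintype.card V ≤ X0.card →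
    ∀ φ : V → X, (∀ v, φ v = z0 ∨ φ v ∈ X0) → (∀ v w, φ v = φ w → φ v ≠ z0 → v = w) →
    ∃ φ' : V → X, (∀ v, φ' v = z0 ∨ φ' v ∈ X0) ∧ (∀ v w, φ' v = φ' w → φ' v ≠ z0 → v = w) ∧
      S G f φ' = S G f φ ∧ (∀ v, φ v ≠ z0 → φ' v = φ v) ∧
      (univ.filter (fun v => φ' v = z0)).card < M := by
  obtain ⟨N, hN⟩ := block_ramsey k 1
  refine ⟨N + 1, ?_⟩
  intro V X _ _ _ G _ f z0 X0 hz0 hcard φ
  induction' hr : (univ.filter (fun v => φ v = z0)).card using Nat.strong_induction_on with r ih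
    generalizing φ
  intro hφ hinj
  by_cases hlt : r < N + 1
  · exact ⟨φ, hφ, hinj, rfl, fun _ _ => rfl, by rw [hr]; exact hlt⟩
  push Not at hlt
  -- choose stacked vertices and free positions
  have hR : N ≤ (univ.filter (fun v => φ v = z0)).card := by omega
  obtain ⟨R', hR'sub, hR'c⟩ := Finset.exists_subset_card_eq hR
  have hRz : ∀ v ∈ R', φ v = z0 := fun v hv => (mem_filter.1 (hR'sub hv)).2
  set I := (univ.filter (fun v => ¬ φ v = z0)).image φ with hI
  have hIc : I.card ≤ Fintype.card V - r := by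
    have h1 : I.card ≤ (univ.filter (fun v => ¬ φ v = z0)).card := Finset.card_image_le
    have h2 := Finset.card_filter_add_card_filter_not (s := (univ : Finset V)) (fun v => φ v = z0)
    rw [card_univ] at h2
    omega
  have hrV : r ≤ Fintype.card V := by
    rw [← hr, ← card_univ]; exact card_le_card (filter_subset _ _)
  have hP : N ≤ (X0 \ I).card := by
    have := Finset.le_card_sdiff I X0
    omega
  obtain ⟨P', hP'sub, hP'c⟩ := Finset.exists_subset_card_eq hP
  have hPX : ∀ x ∈ P', x ∈ X0 := fun x hx => (mem_sdiff.1 (hP'sub hx)).1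
  have hPI : ∀ x ∈ P', ∀ v, φ v ≠ z0 → φ v ≠ x := by
    intro x hx v hv h
    apply (mem_sdiff.1 (hP'sub hx)).2
    rw [hI, mem_image]
    exact ⟨v, mem_filter.2 ⟨mem_univ _, hv⟩, h⟩
  let eR : R' ≃ Fin N := Finset.equivFinOfCardEq hR'c
  let eP : P' ≃ Fin N := Finset.equivFinOfCardEq hP'c
  let ψ : V → X := fun t => if h : t ∈ R' then (eP.symm (eR ⟨t, h⟩)).1 else φ t
  have hψ : ∀ t, t ∈ R' → ψ t ∈ P' := by
    intro t h
    simp only [ψ, dif_pos h]
    exact (eP.symm (eR ⟨t, h⟩)).2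
  have hψinj : ∀ t t', t ∈ R' → t' ∈ R' → ψ t = ψ t' → t = t' := by
    intro t t' h h' he
    simp only [ψ, dif_pos h, dif_pos h'] at he
    have h1 := eP.symm.injective (Subtype.ext he)
    have h2 := eR.injective h1
    exact congrArg Subtype.val h2
  let W : Fin N → Finset V := fun i => {(eR.symm i).1}
  have hW : ∀ i j, i ≠ j → Disjoint (W i) (W j) := by
    intro i j hij
    simp only [W, disjoint_singleton]
    intro h
    exact hij (eR.symm.injective (Subtype.ext h))
  obtain ⟨Y, -, hYc, hYF⟩ := hN (Fin N) _ _ _ (isQuad_blocks G f φ ψ W hW) univ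
    (by rw [card_univ, Fintype.card_fin])
  simp only [biUnion_empty, mix_empty] at hYF
  set W0 := Y.biUnion W with hW0
  have hW0R : ∀ t ∈ W0, t ∈ R' := by
    intro t ht
    rw [hW0, mem_biUnion] at ht
    obtain ⟨i, _, hi⟩ := ht
    simp only [W, mem_singleton] at hi
    rw [hi]; exact (eR.symm i).2
  have hW0ne : W0.Nonempty := by
    have hY : Y.Nonempty := by
      rw [← card_pos, hYc]
      have := NeZero.pos k
      positivity
    obtain ⟨i, hi⟩ := hY
    exact ⟨(eR.symm i).1, mem_biUnion.2 ⟨i, hi, by simp [W]⟩⟩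
  have hm1 : ∀ t ∈ W0, mix φ ψ W0 t = ψ t := fun t ht => by simp [mix, ht]
  have hm2 : ∀ t, t ∉ W0 → mix φ ψ W0 t = φ t := fun t ht => by simp [mix, ht]
  have hz0P : ∀ x ∈ P', x ≠ z0 := fun x hx h => hz0 (h ▸ hPX x hx)
  have hlt' : (univ.filter (fun v => mix φ ψ W0 v = z0)).card < r := by
    rw [← hr]
    apply card_lt_card
    rw [ssubset_iff_of_subset]
    · obtain ⟨t, ht⟩ := hW0ne
      refine ⟨t, mem_filter.2 ⟨mem_univ _, hRz t (hW0R t ht)⟩, ?_⟩
      intro h
      have h2 := (mem_filter.1 h).2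
      rw [hm1 t ht] at h2
      exact hz0P _ (hψ t (hW0R t ht)) h2
    · intro t ht
      have h2 := (mem_filter.1 ht).2
      by_cases htW : t ∈ W0
      · exact mem_filter.2 ⟨mem_univ _, hRz t (hW0R t htW)⟩
      · rw [hm2 t htW] at h2
        exact mem_filter.2 ⟨mem_univ _, h2⟩
  obtain ⟨φ', h1, h2, h3, h4, h5⟩ := ih _ hlt' (mix φ ψ W0) rfl (by
      intro v
      by_cases hv : v ∈ W0
      · rw [hm1 v hv]; right; exact hPX _ (hψ v (hW0R v hv))
      · rw [hm2 v hv]; exact hφ v) (by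
      intro v w hvw hne
      by_cases hv : v ∈ W0
      · rw [hm1 v hv] at hvw hne
        by_cases hw : w ∈ W0
        · rw [hm1 w hw] at hvw
          exact hψinj v w (hW0R v hv) (hW0R w hw) hvw
        · rw [hm2 w hw] at hvw
          exfalso
          exact hPI _ (hψ v (hW0R v hv)) w (by rw [← hvw]; exact hne) hvw.symm
      · rw [hm2 v hv] at hvw hne
        by_cases hw : w ∈ W0
        · rw [hm1 w hw] at hvw
          exfalso
          exact hPI _ (hψ w (hW0R w hw)) v hne hvw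
        · rw [hm2 w hw] at hvw
          exact hinj v w hvw hne)
  refine ⟨φ', h1, h2, by rw [h3, hYF], ?_, h5⟩
  intro v hv
  have hvW : v ∉ W0 := fun h => hv (hRz v (hW0R v h))
  have := h4 v (by rw [hm2 v hvW]; exact hv)
  rw [this, hm2 v hvW]

/-- unstacking on a set of twins (modulo `H`) -/
theorem unstack {V X A : Type} [Fintype V] [DecidableEq V] [DecidableEq X] [AddCommGroup A]
    (H : AddSubgroup A) (G : SimpleGraph V) [DecidableRel G.Adj] (f : Sym2 X → A) (z0 : X)
    (X0 Z : Finset X) (hd : Disjoint X0 Z) (hz0 : z0 ∈ Z)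
    (h1 : ∀ z ∈ Z, ∀ x ∈ X0, f s(x, z) - f s(x, z0) ∈ H)
    (h2 : ∀ z ∈ Z, ∀ z' ∈ Z, z ≠ z' → f s(z, z') - f s(z0, z0) ∈ H)
    (φ : V → X) (hφ : ∀ v, φ v = z0 ∨ φ v ∈ X0) (hinj : ∀ v w, φ v = φ w → φ v ≠ z0 → v = w)
    (hc : (univ.filter (fun v => φ v = z0)).card ≤ Z.card) :
    ∃ ρ : V → X, Function.Injective ρ ∧ (∀ v, ρ v ∈ X0 ∪ Z) ∧ (∀ v, φ v ≠ z0 → ρ v = φ v) ∧
      S G f ρ - S G f φ ∈ H := by
  obtain ⟨Z', hZ', hZ'c⟩ := Finset.exists_subset_card_eq hc
  let e : (univ.filter (fun v => φ v = z0) : Finset V) ≃ Z' := Finset.equivOfCardEq hZ'c.symm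
  let ρ : V → X := fun t => if h : φ t = z0 then (e ⟨t, mem_filter.2 ⟨mem_univ _, h⟩⟩).1 else φ t
  have hρ1 : ∀ t, φ t = z0 → ρ t ∈ Z := by
    intro t h
    simp only [ρ, dif_pos h]
    exact hZ' (e _).2
  have hρ2 : ∀ t, φ t ≠ z0 → ρ t = φ t := by
    intro t h
    simp only [ρ, dif_neg h]
  have hX0 : ∀ t, φ t ≠ z0 → φ t ∈ X0 := fun t h => (hφ t).resolve_left h
  have hdis : ∀ x ∈ X0, x ∉ Z := fun x hx hx' => disjoint_left.1 hd hx hx'
  have hρi : Function.Injective ρ := by
    intro s t hst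
    by_cases hs : φ s = z0
    · by_cases ht : φ t = z0
      · simp only [ρ, dif_pos hs, dif_pos ht] at hst
        have := e.injective (Subtype.ext hst)
        exact congrArg Subtype.val this
      · exfalso
        have h3 := hρ1 s hs
        rw [hst, hρ2 t ht] at h3
        exact hdis _ (hX0 t ht) h3
    · by_cases ht : φ t = z0
      · exfalso
        have h3 := hρ1 t ht
        rw [← hst, hρ2 s hs] at h3
        exact hdis _ (hX0 s hs) h3
      · rw [hρ2 s hs, hρ2 t ht] at hst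
        exact hinj s t hst hs
  refine ⟨ρ, hρi, ?_, hρ2, ?_⟩
  · intro v
    by_cases hv : φ v = z0
    · exact mem_union_right _ (hρ1 v hv)
    · rw [hρ2 v hv]; exact mem_union_left _ (hX0 v hv)
  · unfold S
    rw [← sum_sub_distrib]
    apply H.sum_mem
    intro e' he'
    induction e' using Sym2.ind with
    | _ a b =>
    rw [SimpleGraph.mem_edgeFinset, SimpleGraph.mem_edgeSet] at he'
    have hab : a ≠ b := he'.ne
    simp only [Sym2.map_mk]
    by_cases ha : φ a = z0
    · by_cases hb : φ b = z0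
      · rw [ha, hb]
        exact h2 _ (hρ1 a ha) _ (hρ1 b hb) (fun h => hab (hρi h))
      · rw [hρ2 b hb, Sym2.eq_swap (a := ρ a), Sym2.eq_swap (a := φ a), ha]
        exact h1 _ (hρ1 a ha) _ (hX0 b hb)
    · by_cases hb : φ b = z0
      · rw [hρ2 a ha, hb]
        exact h1 _ (hρ1 b hb) _ (hX0 a ha)
      · rw [hρ2 a ha, hρ2 b hb, sub_self]
        exact H.zero_mem

end Pool.Agent.H730R3
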