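import Mathlib
import Pool.Agent.H730R3.PrimeStep
import Pool.Agent.H730R3.Process
import Pool.Agent.H730R3.LemmaB

set_option autoImplicit false
set_option linter.all false

/-! Auxiliary lemmas for the main assembly. -/

namespace Pool.Agent.H730R3

open Finset

theorem avoid {X : Type} [DecidableEq X] {Tf T1 : ℕ} (c : Fin Tf → Fin 4 → X)
    (hc : Function.Injective (fun p : Fin Tf × Fin 4 => c p.1 p.2)) (U : Finset X)
    (hU : T1 + U.card ≤ Tf) :
    ∃ e : Fin T1 → Fin Tf, Function.Injective e ∧ ∀ i l, c (e i) l ∉ U := by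
  classical
  set bad := (univ : Finset (Fin Tf)).filter (fun i => ∃ l, c i l ∈ U) with hbad
  have hb : bad.card ≤ U.card := by
    have h3 : ∀ i ∈ bad, ∃ l, c i l ∈ U := fun i hi => (mem_filter.1 hi).2
    choose! g hg using h3
    apply Finset.card_le_card_of_injOn (fun i => c i (g i)) (fun i hi => mem_coe.2 (hg i (mem_coe.1 hi)))
    intro x hx y hy hxy
    have := hc (a₁ := (x, g x)) (a₂ := (y, g y)) hxy
    exact (Prod.ext_iff.1 this).1
  have hg : T1 ≤ (univ \ bad).card := by
    have := Finset.le_card_sdiff bad univ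
    rw [card_univ, Fintype.card_fin] at this
    omega
  refine ⟨fun i => ((univ \ bad).equivFin.symm (Fin.castLE hg i)).1, ?_, ?_⟩
  · intro i j hij
    have := (univ \ bad).equivFin.symm.injective (Subtype.ext hij)
    exact Fin.castLE_injective hg this
  · intro i l h
    have hmem := ((univ \ bad).equivFin.symm (Fin.castLE hg i)).2
    rw [mem_sdiff] at hmem
    exact hmem.2 (mem_filter.2 ⟨mem_univ _, l, h⟩)

theorem select {X : Type} [DecidableEq X] {Tf T1 s : ℕ} (fam : ℕ → Fin Tf → Fin 4 → X)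
    (U0 : Finset X) (hU0 : U0.card ≤ s) (P : Finset ℕ) :
    (∀ q ∈ P, Function.Injective (fun p : Fin Tf × Fin 4 => fam q p.1 p.2)) →
    T1 + 4 * T1 * P.card + s ≤ Tf →
    ∃ e : ℕ → Fin T1 → Fin Tf, (∀ q ∈ P, ∀ i l, fam q (e q i) l ∉ U0) ∧
      (∀ q ∈ P, ∀ q' ∈ P, ∀ i i' l l', fam q (e q i) l = fam q' (e q' i') l' →
        q = q' ∧ i = i' ∧ l = l') := by
  classical
  induction P using Finset.induction_on with
  | empty =>
    intro _ h
    exact ⟨fun _ i => Fin.castLE (by omega) i, by simp, by simp⟩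
  | insert q P hq ih =>
    intro hinj hT
    rw [card_insert_of_notMem hq] at hT
    have hT' : T1 + 4 * T1 * P.card + s ≤ Tf := by
      have : 4 * T1 * (P.card + 1) = 4 * T1 * P.card + 4 * T1 := by ring
      omega
    obtain ⟨e, he1, he2⟩ := ih (fun q' hq' => hinj q' (mem_insert_of_mem hq')) hT'
    set U1 : Finset X := (P ×ˢ (univ : Finset (Fin T1 × Fin 4))).image
      (fun t => fam t.1 (e t.1 t.2.1) t.2.2) with hU1
    have hU1c : U1.card ≤ P.card * (T1 * 4) := by
      have h1 : U1.card ≤ (P ×ˢ (univ : Finset (Fin T1 × Fin 4))).card := Finset.card_image_le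
      rw [card_product, card_univ, Fintype.card_prod, Fintype.card_fin, Fintype.card_fin] at h1
      exact h1
    obtain ⟨eq', heq1, heq2⟩ := avoid (T1 := T1) (fam q) (hinj q (mem_insert_self _ _)) (U0 ∪ U1) (by
      have h1 := Finset.card_union_le U0 U1
      have : 4 * T1 * P.card = P.card * (T1 * 4) := by ring
      omega)
    refine ⟨Function.update e q eq', ?_, ?_⟩
    · intro q' hq' i l
      rcases mem_insert.1 hq' with h | h
      · subst h
        rw [Function.update_self]
        exact fun h' => heq2 i l (mem_union_left _ h')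
      · have hne : q' ≠ q := fun h' => hq (h' ▸ h)
        rw [Function.update_of_ne hne]
        exact he1 q' h i l
    · intro q1 hq1 q2 hq2 i i' l l' heq
      rcases mem_insert.1 hq1 with h1 | h1
      · subst h1
        rcases mem_insert.1 hq2 with h2 | h2
        · subst h2
          rw [Function.update_self] at heq
          have := hinj q2 (mem_insert_self _ _) (a₁ := (eq' i, l)) (a₂ := (eq' i', l')) heq
          rw [Prod.ext_iff] at this
          exact ⟨rfl, heq1 this.1, this.2⟩
        · have hne : q2 ≠ q1 := fun h' => hq (h' ▸ h2)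
          rw [Function.update_self, Function.update_of_ne hne] at heq
          exfalso
          apply heq2 i l
          rw [heq]
          exact mem_union_right _ (mem_image.2 ⟨(q2, (i', l')), mem_product.2 ⟨h2, mem_univ _⟩, rfl⟩)
      · have hne1 : q1 ≠ q := fun h' => hq (h' ▸ h1)
        rcases mem_insert.1 hq2 with h2 | h2
        · subst h2
          rw [Function.update_self, Function.update_of_ne hne1] at heq
          exfalso
          apply heq2 i' l'
          rw [← heq]
          exact mem_union_right _ (mem_image.2 ⟨(q1, (i, l)), mem_product.2 ⟨h1, mem_univ _⟩, rfl⟩)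
        · have hne2 : q2 ≠ q := fun h' => hq (h' ▸ h2)
          rw [Function.update_of_ne hne1, Function.update_of_ne hne2] at heq
          exact he2 q1 h1 q2 h2 i i' l l' heq

theorem S_map_inl {V V2 X A : Type} [Fintype V] [DecidableEq V] [Fintype V2] [DecidableEq V2]
    [AddCommGroup A] (G : SimpleGraph V) [DecidableRel G.Adj] (ι : V ↪ V2)
    [DecidableRel (G.map ι).Adj] (f : Sym2 X → A) (φ : V2 → X) :
    S (G.map ι) f φ = S G f (φ ∘ ι) := by
  classical
  unfold S
  have h : (G.map ι).edgeFinset = G.edgeFinset.map ι.sym2Map := by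
    ext e
    simp only [SimpleGraph.mem_edgeFinset, mem_map]
    rw [SimpleGraph.edgeSet_map]
    simp
  rw [h, sum_map]
  refine sum_congr rfl fun e _ => ?_
  rw [← Sym2.map_map]
  rfl

theorem zero_of_parts (k : ℕ) [NeZero k] (H : AddSubgroup (ZMod k)) (s : ZMod k) (hs : s ∈ H)
    (h : ∀ q ∈ (Nat.card H).primeFactors, (ordCompl[q] k) • s = 0) : s = 0 := by
  by_contra hne
  have ho : addOrderOf s ≠ 1 := by
    intro h1
    exact hne (AddMonoid.addOrderOf_eq_one_iff.1 h1)
  obtain ⟨q, hq, hqd⟩ := Nat.exists_prime_and_dvd ho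
  have hdvd : addOrderOf s ∣ Nat.card H := by
    have := addOrderOf_dvd_natCard (⟨s, hs⟩ : H)
    rwa [AddSubgroup.addOrderOf_mk] at this
  have hqm : q ∈ (Nat.card H).primeFactors := by
    rw [Nat.mem_primeFactors]
    exact ⟨hq, hqd.trans hdvd, Nat.card_pos.ne'⟩
  have h1 := addOrderOf_dvd_of_nsmul_eq_zero (h q hqm)
  have h2 : q ∣ ordCompl[q] k := hqd.trans h1
  have h3 := Nat.coprime_ordCompl hq (NeZero.ne k)
  exact hq.one_lt.ne' (Nat.Coprime.eq_one_of_dvd h3 h2)

theorem prime_le (k : ℕ) [NeZero k] (H : AddSubgroup (ZMod k)) (q : ℕ)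
    (hq : q ∈ (Nat.card H).primeFactors) : q < k + 1 := by
  have h1 := Nat.dvd_of_mem_primeFactors hq
  have h2 : Nat.card H ∣ Nat.card (ZMod k) := AddSubgroup.card_addSubgroup_dvd_card H
  rw [Nat.card_zmod] at h2
  have := Nat.le_of_dvd (NeZero.pos k) (h1.trans h2)
  omega

theorem Mq_lt (k : ℕ) [NeZero k] (H : AddSubgroup (ZMod k)) (q : ℕ)
    (hq : q ∈ (Nat.card H).primeFactors) : H.map (nsmulAddMonoidHom q) < H := by
  have hle : H.map (nsmulAddMonoidHom q) ≤ H := by
    intro x hx
    rw [AddSubgroup.mem_map] at hx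
    obtain ⟨y, hy, rfl⟩ := hx
    exact H.nsmul_mem hy q
  refine lt_of_le_of_ne hle ?_
  intro heq
  have hqp := Nat.prime_of_mem_primeFactors hq
  haveI : Fact q.Prime := ⟨hqp⟩
  obtain ⟨y, hy⟩ := exists_prime_addOrderOf_dvd_card' (G := H) q (Nat.dvd_of_mem_primeFactors hq)
  have hsurj : Function.Surjective (fun y : H => q • y) := by
    intro x
    have hx : x.1 ∈ H.map (nsmulAddMonoidHom q) := by rw [heq]; exact x.2
    rw [AddSubgroup.mem_map] at hx
    obtain ⟨z, hz, hzx⟩ := hx
    exact ⟨⟨z, hz⟩, Subtype.ext hzx⟩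
  have hinj := Finite.injective_iff_surjective.2 hsurj
  have hq0 : q • y = 0 := by rw [← hy]; exact addOrderOf_nsmul_eq_zero y
  have : y = 0 := hinj (by simp only [hq0, smul_zero])
  rw [this, addOrderOf_zero] at hy
  exact hqp.one_lt.ne hy

theorem k_dvd_mul (k q q' : ℕ) (hq : q.Prime) (hq' : q'.Prime) (hne : q ≠ q') :
    k ∣ ordCompl[q] k * ordCompl[q'] k := by
  have h1 : ordProj[q] k * ordCompl[q] k = k := Nat.ordProj_mul_ordCompl_eq_self k q
  have h2 : ordProj[q] k ∣ ordCompl[q'] k := by
    have h3 : ordProj[q] k ∣ ordProj[q'] k * ordCompl[q'] k := by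
      rw [Nat.ordProj_mul_ordCompl_eq_self k q']
      exact Nat.ordProj_dvd k q
    refine Nat.Coprime.dvd_of_dvd_mul_left ?_ h3
    apply Nat.Coprime.pow
    exact (Nat.coprime_primes hq hq').2 hne
  obtain ⟨r, hr⟩ := h2
  refine ⟨r, ?_⟩
  rw [hr]
  calc ordCompl[q] k * (ordProj[q] k * r) = (ordProj[q] k * ordCompl[q] k) * r := by ring
    _ = k * r := by rw [h1]

end Pool.Agent.H730R3
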